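import Mathlib
import Pool.Agent.Lib.MP_e26f2a_co.BG.Base

/-!
# Biggs' conjecture, even k = 2a+2: the one-sided function `f` and the flow `kf`

Ground set `Gd a = Option (Fin a × Bool)`: one single point `none` and `a` pairs.
For a subset `W`: `sp W` = the split points (pair met in exactly one point), `fu W` = the full pairs,
`em W` = the empty pairs.
-/

set_option autoImplicit false

namespace E82

open Finset

/-- ground set: one point and `a` pairs -/
abbrev Gd (a : ℕ) : Type := Option (Fin a × Bool)

/-- the sign of a Boolean -/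
def sgb (b : Bool) : ℝ := if b then 1 else -1

section
variable {a : ℕ}

/-- split points -/
def sp (W : Finset (Gd a)) : Finset (Fin a × Bool) :=
  univ.filter fun p => some p ∈ W ∧ some (p.1, !p.2) ∉ W

/-- full pairs -/
def fu (W : Finset (Gd a)) : Finset (Fin a) :=
  univ.filter fun i => some (i, true) ∈ W ∧ some (i, false) ∈ W

/-- empty pairs -/
def em (W : Finset (Gd a)) : Finset (Fin a) :=
  univ.filter fun i => some (i, true) ∉ W ∧ some (i, false) ∉ W

/-- number of split pairs -/
def q (W : Finset (Gd a)) : ℕ := (sp W).card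

/-- sum of the signs of the split pairs -/
noncomputable def S (W : Finset (Gd a)) : ℝ := ∑ p ∈ sp W, sgb p.2

/-- product of the signs of the split pairs -/
noncomputable def ch (W : Finset (Gd a)) : ℝ := ∏ p ∈ sp W, sgb p.2

/-- number of split pairs other than pair 0 with sign - -/
def mn (W : Finset (Gd a)) : ℕ := ((sp W).filter fun p => p.1.val ≠ 0 ∧ p.2 = false).card

end

/-- A perfect matching of the Johnson graph `J(a, g)` (`G ↦ G - i G + j G`) together with a sign
`ep` which is opposite on matched sets. -/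
structure Mt (a g : ℕ) where
  i : Finset (Fin a) → Fin a
  j : Finset (Fin a) → Fin a
  ep : Finset (Fin a) → ℝ
  hi : ∀ G : Finset (Fin a), G.card = g → i G ∈ G
  hj : ∀ G : Finset (Fin a), G.card = g → j G ∉ G
  hij : ∀ G : Finset (Fin a), G.card = g → i (insert (j G) (G.erase (i G))) = j G
  hji : ∀ G : Finset (Fin a), G.card = g → j (insert (j G) (G.erase (i G))) = i G
  hep : ∀ G : Finset (Fin a), G.card = g → ep G = 1 ∨ ep G = -1
  hepp : ∀ G : Finset (Fin a), G.card = g → ep (insert (j G) (G.erase (i G))) = - ep G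

section
variable {a : ℕ}

/-- pairs different from 0 all contain their `true` point -/
def Pl (W : Finset (Gd a)) : Prop := none ∉ W ∧ ∀ i : Fin a, i.val ≠ 0 → some (i, true) ∈ W

instance (W : Finset (Gd a)) : Decidable (Pl W) := by unfold Pl; infer_instance

/-- pair 0 is split in `W` -/
def Z0 (W : Finset (Gd a)) : Prop := ∃ p ∈ sp W, p.1.val = 0

instance (W : Finset (Gd a)) : Decidable (Z0 W) := by unfold Z0; infer_instance

/-- correction 1 of `ch`: the two flipped transversals -/
noncomputable def d1 (U : Finset (Gd a)) : ℝ := if q U = a ∧ Pl U then -2 * ch U else 0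

/-- correction 2: the sets without split pair -/
noncomputable def d2 (ep : Finset (Fin a) → ℝ) (U : Finset (Gd a)) : ℝ :=
  if q U = 0 then ep (fu U) - 1 else 0

/-- correction 3 (a odd): the sets `G + (j G, b)` -/
noncomputable def d3 (j : Finset (Fin a) → Fin a) (ep : Finset (Fin a) → ℝ)
    (U : Finset (Gd a)) : ℝ :=
  if none ∉ U ∧ q U = 1 then ∑ p ∈ sp U, (if p.1 = j (fu U) then - ep (fu U) - sgb p.2 else 0) else 0

/-- the sign function on `a`-subsets -/
noncomputable def f (M : Mt a (a/2)) (U : Finset (Gd a)) : ℝ :=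
  ch U + d1 U + d2 M.ep U + d3 M.j M.ep U

/-! ## The eight parts of the flow; `x ∉ W` is the added point -/

/-- swap flow of the split pairs -/
noncomputable def k1 (W : Finset (Gd a)) : Gd a → ℝ
  | none => 0
  | some (l, b) => if (l, !b) ∈ sp W ∧ 2 ≤ q W then
      ch W * (S W - sgb (!b)) / ((q W : ℝ) - 1) else 0

/-- the single point, through the empty pairs -/
noncomputable def k2 (W : Finset (Gd a)) : Gd a → ℝ
  | none => 0
  | some (l, b) => if none ∈ W ∧ l ∈ em W ∧ 2 ≤ q W ∧ q W < a then
      ch W * (1 - sgb b * S W / (q W : ℝ)) / ((a : ℝ) - (q W : ℝ)) else 0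

/-- weights for the transversals with the single point: `l` the pair, `b'` its sign in `W` -/
noncomputable def kap (W : Finset (Gd a)) (l : Fin a) (b' : Bool) : ℝ :=
  if mn W = 0 then (if l.val = 0 then -1 else 0)
  else if mn W = 1 then (if l.val = 0 then 2 / (a:ℝ) else if b' = false then 0 else 1 / (a:ℝ))
  else 1 / (a:ℝ)

/-- the single point, all pairs split -/
noncomputable def k3 (W : Finset (Gd a)) : Gd a → ℝ
  | none => 0
  | some (l, b) => if none ∈ W ∧ q W = a ∧ (l, !b) ∈ sp W then ch W * kap W l (!b) else 0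

/-- correction at the flipped transversals -/
noncomputable def k4 (W : Finset (Gd a)) : Gd a → ℝ
  | none => 0
  | some (l, b) => if Pl W ∧ l.val = 0 ∧ (l, !b) ∈ sp W then -2 * ch W else 0

/-- `k5` in terms of the upper set `Z` -/
noncomputable def K5 (M : Mt a (a/2)) (Z : Finset (Gd a)) : Gd a → ℝ
  | none => 0
  | some (l, b) =>
    if q Z = 2 then
      (if l = M.j (fu Z) ∧ (l, b) ∈ sp Z ∧ (∃ p ∈ sp Z, p.2 = !b) then M.ep (fu Z)
       else if l = M.i (fu Z) ∧ (M.j (fu Z), !b) ∈ sp Z ∧ (∃ p ∈ sp Z, p.2 = b) then - M.ep (fu Z)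
       else 0)
    else 0

/-- sets with one / three split pairs: moving a full pair -/
noncomputable def k5 (M : Mt a (a/2)) (W : Finset (Gd a)) (x : Gd a) : ℝ := K5 M (insert x W) x

/-- `k6` in terms of the upper set `Z` -/
noncomputable def K6 (M : Mt a (a/2)) (Z : Finset (Gd a)) : Gd a → ℝ
  | none => 0
  | some (l, b) =>
    if none ∈ Z ∧ q Z = 1 ∧ sgb b = - M.ep (fu Z) ∧ (M.j (fu Z), b) ∈ sp Z then
      (if l = M.j (fu Z) then M.ep (fu Z) else if l = M.i (fu Z) then - M.ep (fu Z) else 0)
    else 0

/-- sets with `none` and zero / two split pairs (a even) -/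
noncomputable def k6 (M : Mt a (a/2)) (W : Finset (Gd a)) (x : Gd a) : ℝ := K6 M (insert x W) x

/-- one split pair, filled -/
noncomputable def k7 (M : Mt a (a/2)) (W : Finset (Gd a)) : Gd a → ℝ
  | none => 0
  | some (l, b) => if q W = 1 ∧ (l, !b) ∈ sp W then
      (if none ∈ W then (if l = M.j (fu W) then 0 else sgb (!b))
       else (if l = M.j (fu W) then M.ep (fu W) else 0)) else 0

/-- two split pairs, no single point (a odd) -/
noncomputable def k8 (M : Mt a (a/2)) (W : Finset (Gd a)) : Gd a → ℝ
  | none => 0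
  | some (l, b) => if none ∉ W ∧ q W = 2 ∧ (l, !b) ∈ sp W ∧ l = M.j (fu W) then
      - M.ep (fu W) - sgb (!b) else 0

/-- the flow -/
noncomputable def kf (M : Mt a (a/2)) (W : Finset (Gd a)) (x : Gd a) : ℝ :=
  k1 W x + k2 W x + k3 W x + k4 W x + k5 M W x + k6 M W x + k7 M W x + k8 M W x

end

end E82
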