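import Pool.Agent.Lib.MP_e26f2a_co.E82.Tool2

set_option autoImplicit false

namespace E82

open Finset BG

section
variable {a : ℕ}

/-- B1. `p ∈ sp W`, `q W = 1`, `x = (p.1, !p.2)`. `k1 = 0` (`¬ 2 ≤ 1`), `k2 = 0` (`¬ 2 ≤ 1`), `k3 = 0`
(`1 ≠ a`), `k4 = 0` (`PL`: `Pl W` and `p.1.val = 0` give `q W + 1 = a`), `k5 = 0`, `k6 = 0`
(`Z = insert x W`: `sp Z = (sp W).erase p`, so `q Z = 0`), `k8 = 0`. `k7` is `0`, `± 1` or
`M.ep (fu W)` with `(fu W).card = a/2` by `card_W`. -/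
theorem B1 (M : Mt a (a/2)) (ha : 4 ≤ a) (W : Finset (Gd a)) (hW : W.card = a+1)
    (p : Fin a × Bool) (hp : p ∈ sp W) (hq : q W = 1) : |kf M W (some (p.1, !p.2))| ≤ 1 := by sorry

/-- B5. `e ∈ em W`, `x = (e,b)`, `Z = insert x W`, `sp Z = insert (e,b) (sp W)`, `fu Z = fu W`.
`k1 = k3 = k4 = k7 = k8 = 0` (`(e, !b) ∉ sp W`). `k5`: nonzero only if `q W = 1`: `0` or
`± M.ep (fu W)`; the second branch is impossible if you want (`M.i (fu W) ∈ fu W`), anyway at most one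
branch: `|k5| ≤ 1` (`(fu W).card = a/2` by `card_W` for `q W = 1`). `k6`: nonzero only if `q W = 0`,
`none ∈ W`: `|k6| ≤ 1` (same). `k2`: nonzero only if `2 ≤ q W < a`, `none ∈ W`: `|1 - sgb b * S/q| ≤ 2`
(`S_abs`) and `a - q W ≥ 2` (`card_W`, `card_a`: `none ∈ W` gives `(em W).card = (fu W).card` and
`a - q W = 2 * (em W).card ≥ 2`). The three conditions `q W ≥ 2`, `= 1`, `= 0` exclude each other. -/
theorem B5 (M : Mt a (a/2)) (ha : 4 ≤ a) (W : Finset (Gd a)) (hW : W.card = a+1)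
    (e : Fin a) (he : e ∈ em W) (b : Bool) : |kf M W (some (e, b))| ≤ 1 := by sorry

end

end E82
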