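import Pool.Agent.Lib.MP_e26f2a_co.E82.Tool2

set_option autoImplicit false

namespace E82

open Finset BG

section
variable {a : ℕ}

/-- B2. `p ∈ sp W`, `q W = 2`, `sp W = {p, p'}`, `x = (p.1, !p.2)`. `k1 = ch W * (S W - sgb p.2) / 1 =
(sgb p.2 * sgb p'.2) * sgb p'.2 = sgb p.2`. `k2 = 0` (`p.1 ∉ em W`), `k3 = 0` (`2 ≠ a`), `k4 = 0` (`PL`:
`q W + 1 = a`), `k5 = 0` (`q Z = 1`), `k7 = 0`. If `none ∈ W`: `k8 = 0`; `k6`: `Z = insert x W`,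
`sp Z = {p'}`, `fu Z = insert p.1 (fu W)`; if nonzero then `sgb (!p.2) = - M.ep (fu Z)`, i.e.
`sgb p.2 = M.ep (fu Z)`, `p' = (M.j (fu Z), !p.2)` hence `p.1 ≠ M.j (fu Z)` (`sp_inj`), value
`- M.ep (fu Z)` or `0`. Total `0` or `sgb p.2`. If `none ∉ W`: `k6 = 0`; `k8 = 0` (total `sgb p.2`)
or `k8 = - M.ep (fu W) - sgb p.2`, total `- M.ep (fu W)` with `(fu W).card = a/2` (`card_W`). -/
theorem B2 (M : Mt a (a/2)) (ha : 4 ≤ a) (W : Finset (Gd a)) (hW : W.card = a+1)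
    (p : Fin a × Bool) (hp : p ∈ sp W) (hq : q W = 2) : |kf M W (some (p.1, !p.2))| ≤ 1 := by sorry

end

end E82
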