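import Pool.Agent.Lib.MP_e26f2a_co.E82.Tool2

set_option autoImplicit false

namespace E82

open Finset BG

section
variable {a : ℕ}

/-- B3. `p ∈ sp W`, `q W = 3`, `sp W = {p, p', p''}`, `x = (p.1, !p.2)`, `Z = insert x W`,
`sp Z = {p', p''}`, `fu Z = insert p.1 (fu W)`. `k1 = ch W * (S W - sgb p.2) / 2`, `|k1| ≤ 1`
(`S_sub_abs`). `k2 = 0` (`p.1 ∉ em W`), `k3 = 0` (`q W = a` and `none ∈ W` is impossible: if `a = 3`.. but
`4 ≤ a`), `k6 = 0` (`q Z = 2`), `k7 = k8 = 0`. `k5`: first branch impossible (`(p.1, !p.2) ∉ sp Z`);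
if the second branch holds, `(M.j (fu Z), p.2) ∈ sp Z` and some element of `sp Z` has sign `!p.2`: so
`S W - sgb p.2 = sgb p'.2 + sgb p''.2 = 0` and `k1 = 0`, `|k5| = |M.ep (fu Z)| = 1`
(`(fu Z).card = (fu W).card + 1 = a/2` by `card_W`). `k4`: nonzero only if `Pl W`, `p.1.val = 0`; by
`PL` (with `Z0 W` from `p`) the other two points `p', p''` have sign + (their pairs are not 0 by
`sp_inj`), so `k5 = 0` (no element of sign... the second branch needs elements of both signs in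
`sp Z`), `S W - sgb p.2 = 2`, `k1 = ch W`, `k4 = -2 ch W`, total `- ch W`. -/
theorem B3 (M : Mt a (a/2)) (ha : 4 ≤ a) (W : Finset (Gd a)) (hW : W.card = a+1)
    (p : Fin a × Bool) (hp : p ∈ sp W) (hq : q W = 3) : |kf M W (some (p.1, !p.2))| ≤ 1 := by sorry

end

end E82
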