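import Pool.Agent.Lib.MP_e26f2a_co.E82.PB4a

set_option autoImplicit false

namespace E82

open Finset BG

section
variable {a : ℕ}

/-- B4. `4 ≤ q W`, `x = (p.1, !p.2)`, `Z = insert x W`, `q Z + 1 = q W`, so `q Z ≥ 3`: `k5 = k6 = 0`,
`k7 = k8 = 0`, `k2 = 0` (`p.1 ∉ em W`). `kf = k1 + k3 + k4`, `k1 = ch W * (S W - sgb p.2)/(q W - 1)`,
`|k1| ≤ 1` (`S_sub_abs`). If `none ∈ W`: `k4 = 0`; if `q W = a`: `kf = ch W * ((S W - sgb p.2)/(q W - 1)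
+ kap W p.1 p.2)`, B4a and `ch_abs`; else `k3 = 0`. If `none ∉ W`: `k3 = 0`; `k4 ≠ 0` only if `Pl W`,
`p.1.val = 0`; then by `PL` all other points of `sp W` have sign + (their pairs are not 0 by `sp_inj`),
so `S W - sgb p.2 = q W - 1`, `k1 = ch W`, `kf = - ch W`. -/
theorem B4 (M : Mt a (a/2)) (ha : 4 ≤ a) (W : Finset (Gd a)) (hW : W.card = a+1)
    (p : Fin a × Bool) (hp : p ∈ sp W) (hq : 4 ≤ q W) : |kf M W (some (p.1, !p.2))| ≤ 1 := by sorry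

end

end E82
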