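import Pool.Agent.Lib.MP_e26f2a_co.E82.Tool2

set_option autoImplicit false

namespace E82

open Finset BG

section
variable {a : ℕ}

/-- D1. By `sum_out`: the `none` term is 0, the terms of the empty pairs are 0 (`em_not_sp`), the term
of the split point `p` (added point `(p.1, !p.2)`, sign of the present point `!!p.2 = p.2`) is
`if 2 ≤ q W then ch W * (S W - sgb p.2)/(q W - 1)`. Sum over `sp W` (card `q W`):
`ch W * (q S - S)/(q-1) = ch W * S W`. -/
theorem D1 (W : Finset (Gd a)) :
    ∑ x ∈ Wᶜ, k1 W x = if 2 ≤ q W then ch W * S W else 0 := by sorry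

/-- D4. `sum_out`; only `p ∈ sp W` with `p.1.val = 0` contributes; at most one such `p` (`sp_inj`,
`Fin.ext`). -/
theorem D4 (W : Finset (Gd a)) :
    ∑ x ∈ Wᶜ, k4 W x = if Pl W ∧ Z0 W then -2 * ch W else 0 := by sorry

/-- D7. `sum_out`, term by term. -/
theorem D7 (M : Mt a (a/2)) (W : Finset (Gd a)) :
    ∑ x ∈ Wᶜ, k7 M W x =
      if q W = 1 then ∑ p ∈ sp W, (if none ∈ W then (if p.1 = M.j (fu W) then 0 else sgb p.2)
        else (if p.1 = M.j (fu W) then M.ep (fu W) else 0)) else 0 := by sorry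

/-- D8. `sum_out`, term by term. -/
theorem D8 (M : Mt a (a/2)) (W : Finset (Gd a)) :
    ∑ x ∈ Wᶜ, k8 M W x =
      if none ∉ W ∧ q W = 2 then
        ∑ p ∈ sp W, (if p.1 = M.j (fu W) then - M.ep (fu W) - sgb p.2 else 0) else 0 := by sorry

end

end E82
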