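import Pool.Agent.Lib.MP_e26f2a_co.E82.Tool2

set_option autoImplicit false

namespace E82

open Finset BG

section
variable {a : ℕ}

/-- D2. `sum_out`: only the empty pairs contribute, each `e` gives
`ch W * ((1 - S/q) + (1 + S/q)) / (a-q) = 2 ch W / (a - q)`; by `card_W`, `card_a` (none ∈ W):
`2 * (em W).card = a - q W`. For the split points `p`: `p.1 ∉ em W` (`em_not_sp`). -/
theorem D2 (W : Finset (Gd a)) (hW : W.card = a+1) :
    ∑ x ∈ Wᶜ, k2 W x = if none ∈ W ∧ 2 ≤ q W ∧ q W < a then ch W else 0 := by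
  rw [sum_out]
  have h0 : (if none ∈ W then (0 : ℝ) else k2 W none) = 0 := by
    split_ifs
    · rfl
    · rfl
  have h1 : ∑ p ∈ sp W, k2 W (some (p.1, !p.2)) = 0 := by
    apply Finset.sum_eq_zero
    intro p hp
    have h : p.1 ∉ em W := fun he => em_not_sp he p.2 hp
    simp only [k2]
    rw [if_neg]
    rintro ⟨-, h2, -⟩
    exact h h2
  rw [h0, h1, zero_add, zero_add]
  by_cases hc : none ∈ W ∧ 2 ≤ q W ∧ q W < a
  · rw [if_pos hc]
    obtain ⟨hn, hq2, hqa⟩ := hc
    have hcW := card_W W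
    have hca := card_a W
    rw [if_pos hn, hW] at hcW
    have hem : 2 * (em W).card + q W = a := by omega
    have hem' : 2 * ((em W).card : ℝ) = (a : ℝ) - (q W : ℝ) := by
      have : ((2 * (em W).card + q W : ℕ) : ℝ) = (a : ℝ) := by rw [hem]
      push_cast at this
      linarith
    have hne : (a : ℝ) - (q W : ℝ) ≠ 0 := by
      have : (q W : ℝ) < (a : ℝ) := by exact_mod_cast hqa
      linarith
    have h2 : ∀ e ∈ em W, k2 W (some (e, true)) + k2 W (some (e, false)) =
        2 * ch W / ((a : ℝ) - (q W : ℝ)) := by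
      intro e he
      simp only [k2]
      rw [if_pos ⟨hn, he, hq2, hqa⟩, if_pos ⟨hn, he, hq2, hqa⟩]
      simp only [sgb, if_true, Bool.false_eq_true, if_false]
      ring
    rw [Finset.sum_congr rfl h2, Finset.sum_const, nsmul_eq_mul]
    rw [← hem'] at hne ⊢
    have hne2 : ((em W).card : ℝ) ≠ 0 := fun h => hne (by rw [h, mul_zero])
    field_simp
  · rw [if_neg hc]
    apply Finset.sum_eq_zero
    intro e _
    simp only [k2]
    rw [if_neg (fun h => hc ⟨h.1, h.2.2⟩), if_neg (fun h => hc ⟨h.1, h.2.2⟩), add_zero]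

private theorem D3_card0 (ha : 4 ≤ a) (W : Finset (Gd a)) (hq : q W = a) :
    ((sp W).filter fun p => p.1.val = 0).card = 1 := by
  have hinj : Set.InjOn (fun p : Fin a × Bool => p.1) (sp W) := fun p hp p' hp' h =>
    sp_inj hp hp' h
  have himg : ((sp W).image fun p => p.1) = univ := by
    rw [← Finset.card_eq_iff_eq_univ, Finset.card_image_of_injOn hinj, Fintype.card_fin]
    exact hq
  have hpos : 0 < a := by omega
  have hmem : (⟨0, hpos⟩ : Fin a) ∈ ((sp W).image fun p => p.1) := by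
    rw [himg]; exact mem_univ _
  obtain ⟨p0, hp0, hp0'⟩ := Finset.mem_image.1 hmem
  rw [Finset.card_eq_one]
  refine ⟨p0, ?_⟩
  ext p
  rw [mem_filter, mem_singleton]
  constructor
  · rintro ⟨hp, hv⟩
    apply sp_inj hp hp0
    rw [hp0']
    exact Fin.ext hv
  · rintro rfl
    refine ⟨hp0, ?_⟩
    rw [hp0']

private theorem D3_kap (ha : 4 ≤ a) (W : Finset (Gd a)) (hq : q W = a) :
    ∑ p ∈ sp W, kap W p.1 p.2 = if mn W = 0 then -1 else 1 := by
  have h0 := D3_card0 ha W hq
  have hane : (a : ℝ) ≠ 0 := by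
    have : (a : ℝ) ≥ 4 := by exact_mod_cast ha
    linarith
  have hs0 : ∑ p ∈ sp W, (if p.1.val = 0 then (1 : ℝ) else 0) = 1 := by
    rw [← Finset.sum_filter, Finset.sum_const, h0, one_smul]
  by_cases hm0 : mn W = 0
  · rw [if_pos hm0]
    have : ∀ p ∈ sp W, kap W p.1 p.2 = - (if p.1.val = 0 then (1 : ℝ) else 0) := by
      intro p _
      unfold kap
      rw [if_pos hm0]
      split_ifs <;> simp
    rw [Finset.sum_congr rfl this, Finset.sum_neg_distrib, hs0]
  · rw [if_neg hm0]
    by_cases hm1 : mn W = 1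
    · have hs1 : ∑ p ∈ sp W, (if p.1.val ≠ 0 ∧ p.2 = false then (1 : ℝ) else 0) = 1 := by
        rw [← Finset.sum_filter, Finset.sum_const, nsmul_eq_mul, mul_one]
        have : ((sp W).filter fun p => p.1.val ≠ 0 ∧ p.2 = false).card = 1 := hm1
        rw [this, Nat.cast_one]
      have : ∀ p ∈ sp W, kap W p.1 p.2 = 1 / (a : ℝ)
          + (1 / (a : ℝ)) * (if p.1.val = 0 then (1 : ℝ) else 0)
          - (1 / (a : ℝ)) * (if p.1.val ≠ 0 ∧ p.2 = false then (1 : ℝ) else 0) := by
        intro p _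
        unfold kap
        rw [if_neg hm0, if_pos hm1]
        by_cases h1 : p.1.val = 0
        · simp [h1]; ring
        · by_cases h2 : p.2 = false
          · simp [h1, h2]
          · simp [h1, h2]
      rw [Finset.sum_congr rfl this, Finset.sum_sub_distrib, Finset.sum_add_distrib,
        ← Finset.mul_sum, ← Finset.mul_sum, hs0, hs1, Finset.sum_const, nsmul_eq_mul]
      have : (sp W).card = a := hq
      rw [this]
      field_simp
      ring
    · have : ∀ p ∈ sp W, kap W p.1 p.2 = 1 / (a : ℝ) := by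
        intro p _
        unfold kap
        rw [if_neg hm0, if_neg hm1]
      rw [Finset.sum_congr rfl this, Finset.sum_const, nsmul_eq_mul]
      have : (sp W).card = a := hq
      rw [this]
      field_simp

/-- D3. `sum_out`: only split points contribute, sum `= ch W * ∑ p ∈ sp W, kap W p.1 p.2`. With
`q W = a`, every pair is split (`em W = fu W = ∅` from `card_a`), exactly one `p0 ∈ sp W` has
`p0.1.val = 0`. `mn W = 0`: the sum of `kap` is `-1`. `mn W = 1`: exactly one `p1 ∈ sp W` has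
`p1.1.val ≠ 0 ∧ p1.2 = false`: `2/a + 0 + (a-2) * (1/a) = 1`. `mn W ≥ 2`: `a * (1/a) = 1`. -/
theorem D3 (ha : 4 ≤ a) (W : Finset (Gd a)) (hW : W.card = a+1) :
    ∑ x ∈ Wᶜ, k3 W x =
      if none ∈ W ∧ q W = a then (if mn W = 0 then - ch W else ch W) else 0 := by
  have _ := hW
  rw [sum_out]
  have h0 : (if none ∈ W then (0 : ℝ) else k3 W none) = 0 := by
    split_ifs
    · rfl
    · rfl
  have h1 : ∑ e ∈ em W, (k3 W (some (e, true)) + k3 W (some (e, false))) = 0 := by
    apply Finset.sum_eq_zero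
    intro e he
    simp only [k3]
    rw [if_neg (fun h => em_not_sp he _ h.2.2), if_neg (fun h => em_not_sp he _ h.2.2), add_zero]
  rw [h0, h1, zero_add, add_zero]
  by_cases hc : none ∈ W ∧ q W = a
  · rw [if_pos hc]
    have h2 : ∀ p ∈ sp W, k3 W (some (p.1, !p.2)) = ch W * kap W p.1 p.2 := by
      intro p hp
      simp only [k3, Bool.not_not]
      rw [if_pos ⟨hc.1, hc.2, hp⟩]
    rw [Finset.sum_congr rfl h2, ← Finset.mul_sum, D3_kap ha W hc.2]
    split_ifs <;> ring
  · rw [if_neg hc]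
    apply Finset.sum_eq_zero
    intro p _
    simp only [k3]
    rw [if_neg (fun h => hc ⟨h.1, h.2.1⟩)]

end

end E82
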