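import Pool.Agent.Lib.MP_e26f2a_co.E82.Tool2

set_option autoImplicit false

namespace E82

open Finset BG

section
variable {a : ℕ}

/-- value at the missing point of a split pair -/
private theorem D5_fill (M : Mt a (a/2)) (W : Finset (Gd a)) (p : Fin a × Bool) (hp : p ∈ sp W) :
    k5 M W (some (p.1, !p.2)) =
      if q W = 3 ∧ p.1 = M.i (insert p.1 (fu W)) ∧ (M.j (insert p.1 (fu W)), p.2) ∈ (sp W).erase p ∧
        (∃ p' ∈ (sp W).erase p, p'.2 = !p.2) then - M.ep (insert p.1 (fu W)) else 0 := by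
  have e1 : sp (insert (some (p.1, !p.2)) W) = (sp W).erase p := sp_fill hp
  have e2 : fu (insert (some (p.1, !p.2)) W) = insert p.1 (fu W) := fu_fill hp
  have e3 : q (insert (some (p.1, !p.2)) W) + 1 = q W := q_of_erase hp e1
  unfold k5 K5
  dsimp only
  rw [e1, e2]
  by_cases h3 : q W = 3
  · have h2 : q (insert (some (p.1, !p.2)) W) = 2 := by omega
    have hn : ¬ (p.1 = M.j (insert p.1 (fu W)) ∧ (p.1, !p.2) ∈ (sp W).erase p ∧
        (∃ p' ∈ (sp W).erase p, p'.2 = !(!p.2))) := fun h => sp_not hp (mem_erase.1 h.2.1).2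
    rw [if_pos h2, if_neg hn, Bool.not_not]
    by_cases hc : p.1 = M.i (insert p.1 (fu W)) ∧ (M.j (insert p.1 (fu W)), p.2) ∈ (sp W).erase p ∧
        (∃ p' ∈ (sp W).erase p, p'.2 = !p.2)
    · rw [if_pos hc, if_pos ⟨h3, hc⟩]
    · rw [if_neg hc, if_neg fun h => hc h.2]
  · have h2 : ¬ q (insert (some (p.1, !p.2)) W) = 2 := by omega
    rw [if_neg h2, if_neg fun h => h3 h.1]

/-- value at a point of an empty pair -/
private theorem D5_add (M : Mt a (a/2)) (W : Finset (Gd a)) (hF : (fu W).card = a/2)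
    (p : Fin a × Bool) (hp : sp W = {p}) (e : Fin a) (he : e ∈ em W) (b : Bool) :
    k5 M W (some (e, b)) = if e = M.j (fu W) ∧ p.2 = !b then M.ep (fu W) else 0 := by
  have e0 : (e, b) ∉ sp W := em_not_sp he b
  have e1 : sp (insert (some (e, b)) W) = insert (e, b) (sp W) := sp_add he b
  have e2 : fu (insert (some (e, b)) W) = fu W := fu_add he b
  have e3 : q (insert (some (e, b)) W) = q W + 1 := q_of_insert e0 e1
  have e4 : q W = 1 := by unfold q; rw [hp, card_singleton]
  have e5 : q (insert (some (e, b)) W) = 2 := by omega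
  have e6 : ¬ (e = M.i (fu W)) := by
    intro h
    have h1 := M.hi (fu W) hF
    rw [← h] at h1
    have h2 := fu_mem h1 true
    exact em_not_mem he true h2
  unfold k5 K5
  dsimp only
  rw [e1, e2]
  rw [if_pos e5, if_neg (fun h : e = M.i (fu W) ∧ _ => e6 h.1)]
  by_cases hc : e = M.j (fu W) ∧ p.2 = !b
  · rw [if_pos hc, if_pos]
    exact ⟨hc.1, mem_insert_self _ _, p, mem_insert_of_mem (by rw [hp]; exact mem_singleton_self _),
      hc.2⟩
  · rw [if_neg hc, if_neg]
    rintro ⟨h1, _, p', h2, h3⟩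
    rw [mem_insert, hp, mem_singleton] at h2
    rcases h2 with h2 | h2
    · rw [h2] at h3
      have h3 : b = !b := h3
      cases b <;> exact absurd h3 (by decide)
    · rw [h2] at h3
      exact hc ⟨h1, h3⟩

private theorem D5_A (M : Mt a (a/2)) (W : Finset (Gd a)) (hW : W.card = a+1) :
    ∑ p ∈ sp W, k5 M W (some (p.1, !p.2)) = 0 := by
  by_cases h3 : q W = 3
  swap
  · refine sum_eq_zero fun p hp => ?_
    rw [D5_fill M W p hp, if_neg fun h => h3 h.1]
  have hF : (fu W).card + 1 = a / 2 := by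
    have h1 := card_W W
    rw [hW, h3] at h1
    split_ifs at h1 <;> omega
  have hcard : ∀ p ∈ sp W, (insert p.1 (fu W)).card = a / 2 := by
    intro p hp
    rw [card_insert_of_notMem, hF]
    intro h
    exact fu_not_sp h p.2 hp
  set g : Fin a × Bool → ℝ := fun p => k5 M W (some (p.1, !p.2)) with hg
  -- the partner
  have hpart : ∀ p ∈ sp W, g p ≠ 0 → (M.j (insert p.1 (fu W)), p.2) ∈ sp W ∧
      (M.j (insert p.1 (fu W)), p.2) ≠ p ∧
      M.j (insert (M.j (insert p.1 (fu W))) (fu W)) = p.1 ∧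
      g (M.j (insert p.1 (fu W)), p.2) = - g p := by
    intro p hp hne
    have h1 : g p = _ := D5_fill M W p hp
    by_cases hc : q W = 3 ∧ p.1 = M.i (insert p.1 (fu W)) ∧
        (M.j (insert p.1 (fu W)), p.2) ∈ (sp W).erase p ∧ (∃ p' ∈ (sp W).erase p, p'.2 = !p.2)
    swap
    · rw [if_neg hc] at h1
      exact absurd h1 hne
    rw [if_pos hc] at h1
    obtain ⟨_, c1, c2, p', c3, c4⟩ := hc
    have hG := hcard p hp
    have k1 := M.hepp _ hG
    have k2 := M.hji _ hG
    have k3 := M.hij _ hG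
    have hnf : p.1 ∉ fu W := fun h => fu_not_sp h p.2 hp
    rw [← c1, erase_insert hnf] at k1 k2 k3
    set j := M.j (insert p.1 (fu W)) with hj
    have hjs : (j, p.2) ∈ sp W := (mem_erase.1 c2).2
    have hjp : (j, p.2) ≠ p := (mem_erase.1 c2).1
    refine ⟨hjs, hjp, k2, ?_⟩
    have h2 : g (j, p.2) = _ := D5_fill M W (j, p.2) hjs
    have h4 : q W = 3 ∧ (j, p.2).1 = M.i (insert (j, p.2).1 (fu W)) ∧
        (M.j (insert (j, p.2).1 (fu W)), (j, p.2).2) ∈ (sp W).erase (j, p.2) ∧
        (∃ p' ∈ (sp W).erase (j, p.2), p'.2 = !(j, p.2).2) := by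
      refine ⟨h3, k3.symm, ?_, p', ?_, c4⟩
      · show (M.j (insert j (fu W)), p.2) ∈ (sp W).erase (j, p.2)
        rw [k2]
        exact mem_erase.2 ⟨hjp.symm, hp⟩
      · refine mem_erase.2 ⟨?_, (mem_erase.1 c3).2⟩
        rintro rfl
        have c4 : p.2 = !p.2 := c4
        cases h5 : p.2 <;> rw [h5] at c4 <;> exact absurd c4 (by decide)
    rw [if_pos h4] at h2
    rw [h2, h1]
    show - M.ep (insert j (fu W)) = _
    rw [k1]
  rw [← sum_filter_ne_zero]
  refine sum_involution (fun p _ => (M.j (insert p.1 (fu W)), p.2)) ?_ ?_ ?_ ?_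
  · intro p hp
    obtain ⟨h1, h2⟩ := mem_filter.1 hp
    show g p + g (M.j (insert p.1 (fu W)), p.2) = 0
    rw [(hpart p h1 h2).2.2.2]
    ring
  · intro p hp _
    obtain ⟨h1, h2⟩ := mem_filter.1 hp
    exact (hpart p h1 h2).2.1
  · intro p hp
    obtain ⟨h1, h2⟩ := mem_filter.1 hp
    refine mem_filter.2 ⟨(hpart p h1 h2).1, ?_⟩
    show g (M.j (insert p.1 (fu W)), p.2) ≠ 0
    rw [(hpart p h1 h2).2.2.2]
    exact neg_ne_zero.2 h2
  · intro p hp
    obtain ⟨h1, h2⟩ := mem_filter.1 hp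
    show (M.j (insert (M.j (insert p.1 (fu W))) (fu W)), p.2) = p
    rw [(hpart p h1 h2).2.2.1]

private theorem D5_B (M : Mt a (a/2)) (W : Finset (Gd a)) (hW : W.card = a+1) :
    ∑ e ∈ em W, (k5 M W (some (e, true)) + k5 M W (some (e, false))) =
      if q W = 1 then ∑ p ∈ sp W, (if p.1 = M.j (fu W) then 0 else M.ep (fu W)) else 0 := by
  by_cases h1 : q W = 1
  swap
  · rw [if_neg h1]
    refine sum_eq_zero fun e he => ?_
    have h2 : ∀ b, k5 M W (some (e, b)) = 0 := by
      intro b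
      have e0 : (e, b) ∉ sp W := em_not_sp he b
      have e1 : sp (insert (some (e, b)) W) = insert (e, b) (sp W) := sp_add he b
      have e3 : q (insert (some (e, b)) W) = q W + 1 := q_of_insert e0 e1
      unfold k5 K5
      have e5 : ¬ q (insert (some (e, b)) W) = 2 := by omega
      exact if_neg e5
    rw [h2, h2, add_zero]
  rw [if_pos h1]
  obtain ⟨p, hp⟩ := card_eq_one.1 h1
  have hF : (fu W).card = a / 2 := by
    have h2 := card_W W
    rw [hW, h1] at h2
    split_ifs at h2 <;> omega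
  have h2 : ∀ e ∈ em W, k5 M W (some (e, true)) + k5 M W (some (e, false)) =
      if e = M.j (fu W) then M.ep (fu W) else 0 := by
    intro e he
    rw [D5_add M W hF p hp e he, D5_add M W hF p hp e he]
    by_cases h3 : e = M.j (fu W)
    · cases h4 : p.2 <;> simp [h3]
    · simp [h3]
  rw [sum_congr rfl h2, hp, sum_singleton, sum_ite_eq' (em W) (M.j (fu W))]
  have h5 : M.j (fu W) ∈ em W ↔ ¬ p.1 = M.j (fu W) := by
    have hps : p ∈ sp W := by rw [hp]; exact mem_singleton_self _
    constructor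
    · intro h h'
      rw [← h'] at h
      exact em_not_sp h p.2 hps
    · intro h
      have h6 := M.hj (fu W) hF
      rw [mem_em]
      rw [mem_fu] at h6
      by_contra hcon
      apply h
      have h7 : ∃ b, (M.j (fu W), b) ∈ sp W := by
        by_cases ht : some (M.j (fu W), true) ∈ W
        · refine ⟨true, ?_⟩
          rw [mem_sp]
          refine ⟨ht, ?_⟩
          show some (M.j (fu W), !true) ∉ W
          intro hf
          exact h6 ⟨ht, hf⟩
        · refine ⟨false, ?_⟩
          rw [mem_sp]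
          constructor
          · by_contra hf
            exact hcon ⟨ht, hf⟩
          · show some (M.j (fu W), !false) ∉ W
            exact ht
      obtain ⟨b, hb⟩ := h7
      rw [hp, mem_singleton] at hb
      rw [← hb]
  by_cases h6 : p.1 = M.j (fu W)
  · rw [if_pos h6, if_neg fun h => (h5.1 h) h6]
  · rw [if_neg h6, if_pos (h5.2 h6)]

/-- D5. `k5 M W x = K5 M (insert x W) x`. `sum_out` (the `none` term is 0 by definition).
(split point `p`, `Z = insert (p.1,!p.2) W`, `sp Z = (sp W).erase p`, `fu Z = insert p.1 (fu W)`,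
`q Z + 1 = q W`): nonzero only if `q W = 3`; then the first branch of `K5` is impossible
(`(p.1, !p.2) ∉ sp Z`), the second: `p.1 = M.i (fu Z)`, `(M.j (fu Z), p.2) ∈ sp Z`, and some
`p' ∈ sp Z` has `p'.2 = !p.2`; value `- M.ep (fu Z)`. Claim: these values sum to 0 over `p ∈ sp W`:
involution `p ↦ (M.j (fu Z), p.2)`: put `H = fu W`, `G = insert p.1 H`, `i G = p.1`, `l := j G`,
then `G' = insert (j G) (G.erase (i G)) = insert l H`, `i G' = j G = l`, `j G' = i G = p.1`,
`ep G' = - ep G`, the third point `p'` is the same. [`(fu W).card + 1 = a/2` from `card_W`, since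
`q W = 3` and `W.card = a+1`; so `G.card = a/2`.] (Alternatively: write `sp W = {x,y,z}`.)
(empty pair `e`, sign `b`, `Z = insert (e,b) W`, `sp Z = insert (e,b) (sp W)`, `fu Z = fu W`,
`q Z = q W + 1`): nonzero only if `q W = 1`, `sp W = {p}`, `(fu W).card = a/2` (`card_W`); second branch
impossible as `M.i (fu W) ∈ fu W` and `e ∈ em W`; first branch: `e = M.j (fu W)` and `b = !p.2`
(`∃ p' ∈ {(e,b), p}, p'.2 = !b` iff `p.2 = !b`), value `M.ep (fu W)`. So the sum over `e ∈ em W`, `b` is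
`M.ep (fu W)` if `M.j (fu W) ∈ em W` and 0 otherwise; as `M.j (fu W) ∉ fu W`, `M.j (fu W) ∈ em W` iff
`M.j (fu W) ≠ p.1`. -/
theorem D5 (M : Mt a (a/2)) (ha : 4 ≤ a) (W : Finset (Gd a)) (hW : W.card = a+1) :
    ∑ x ∈ Wᶜ, k5 M W x =
      if q W = 1 then ∑ p ∈ sp W, (if p.1 = M.j (fu W) then 0 else M.ep (fu W)) else 0 := by
  have _ := ha
  rw [sum_out]
  have h0 : (if none ∈ W then (0:ℝ) else k5 M W none) = 0 := by
    split_ifs
    · rfl
    · rfl
  rw [h0, D5_A M W hW, D5_B M W hW]
  ring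

end

end E82
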