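import Pool.Agent.Lib.MP_e26f2a_co.E82.Tool2

set_option autoImplicit false

namespace E82

open Finset BG

section
variable {a : ℕ}

/-- the value of `K6` at a filled split point, two split pairs -/
private theorem D6_fill (M : Mt a (a/2)) (W : Finset (Gd a)) (hn : none ∈ W)
    (p p' : Fin a × Bool) (hs : sp W = {p, p'}) (hpp : p ≠ p') :
    k6 M W (some (p.1, !p.2)) =
      if (sgb (!p.2) = - M.ep (insert p.1 (fu W)) ∧ M.j (insert p.1 (fu W)) = p'.1 ∧
        p'.2 = (!p.2) ∧ M.i (insert p.1 (fu W)) = p.1) then - M.ep (insert p.1 (fu W)) else 0 := by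
  have hp : p ∈ sp W := by rw [hs]; simp
  have hp' : p' ∈ sp W := by rw [hs]; simp
  have hne : p.1 ≠ p'.1 := fun h => hpp (sp_inj hp hp' h)
  have h1 := sp_fill hp
  have h2 := fu_fill hp
  have h3 : (sp W).erase p = {p'} := by
    rw [hs]
    ext x
    simp only [mem_erase, mem_insert, mem_singleton]
    constructor
    · rintro ⟨h4, h5 | h5⟩
      · exact absurd h5 h4
      · exact h5
    · rintro rfl
      exact ⟨fun h => hpp h.symm, Or.inr rfl⟩
  have h4 : q (insert (some (p.1, !p.2)) W) = 1 := by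
    unfold q
    rw [h1, h3]; simp
  have h5 : none ∈ insert (some (p.1, !p.2)) W := mem_insert_of_mem hn
  simp only [k6, K6, h4, h5, h1, h2, h3, true_and, mem_singleton]
  by_cases c1 : sgb (!p.2) = - M.ep (insert p.1 (fu W))
  · by_cases c2 : M.j (insert p.1 (fu W)) = p'.1
    · by_cases c3 : p'.2 = (!p.2)
      · have c4 : (M.j (insert p.1 (fu W)), !p.2) = p' := by
          rw [c2, ← c3]
        rw [if_pos ⟨c1, c4⟩, c2, if_neg hne]
        by_cases c5 : M.i (insert p.1 (fu W)) = p.1
        · rw [if_pos c5.symm, if_pos ⟨c1, rfl, c3, c5⟩]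
        · rw [if_neg (fun h => c5 h.symm), if_neg (fun h => c5 h.2.2.2)]
      · rw [if_neg, if_neg (fun h => c3 h.2.2.1)]
        rintro ⟨_, h⟩
        exact c3 (by rw [← h])
    · rw [if_neg, if_neg (fun h => c2 h.2.1)]
      rintro ⟨_, h⟩
      exact c2 (by rw [← h])
  · rw [if_neg (fun h => c1 h.1), if_neg (fun h => c1 h.1)]

private theorem D6_sym (M : Mt a (a/2)) (W : Finset (Gd a)) (p p' : Fin a × Bool)
    (hp : p.1 ∉ fu W) (hc : (insert p.1 (fu W)).card = a/2)
    (h : sgb (!p.2) = - M.ep (insert p.1 (fu W)) ∧ M.j (insert p.1 (fu W)) = p'.1 ∧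
        p'.2 = (!p.2) ∧ M.i (insert p.1 (fu W)) = p.1) :
    (sgb (!p'.2) = - M.ep (insert p'.1 (fu W)) ∧ M.j (insert p'.1 (fu W)) = p.1 ∧
        p.2 = (!p'.2) ∧ M.i (insert p'.1 (fu W)) = p'.1) ∧
      M.ep (insert p'.1 (fu W)) = - M.ep (insert p.1 (fu W)) := by
  obtain ⟨h1, h2, h3, h4⟩ := h
  have hG : insert p'.1 (fu W) =
      insert (M.j (insert p.1 (fu W))) ((insert p.1 (fu W)).erase (M.i (insert p.1 (fu W)))) := by
    rw [h4, erase_insert hp, h2]
  have e1 := M.hij _ hc
  have e2 := M.hji _ hc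
  have e3 := M.hepp _ hc
  rw [← hG] at e1 e2 e3
  refine ⟨⟨?_, ?_, ?_, ?_⟩, e3⟩
  · rw [e3, h3, sgb_not, h1]
  · rw [e2, h4]
  · rw [h3]; simp
  · rw [e1, h2]

/-- D6. `k6 M W x = K6 M (insert x W) x`; all is 0 if `none ∉ W` (the added point is not `none`,
the `none` term is 0 by definition of `K6`). Let `none ∈ W`. `sum_out`.
(empty pair `e`, sign `b`: `sp Z = insert (e,b) (sp W)`, `fu Z = fu W`, `q Z = q W + 1`): nonzero only
if `q W = 0`; then `sp Z = {(e,b)}`, the condition `(M.j (fu W), b) ∈ sp Z` says `e = M.j (fu W)`, value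
`M.ep (fu W)` for the one `b` with `sgb b = - M.ep (fu W)` (`M.ep (fu W) = ±1` as
`(fu W).card = a/2` by `card_W`), 0 for the other `b`; and `M.j (fu W) ∈ em W` since it is not in
`fu W` and nothing is split.
(split point `p`: `sp Z = (sp W).erase p`, `fu Z = insert p.1 (fu W)`, `q Z + 1 = q W`): nonzero only if
`q W = 2`, `sp W = {p, p'}`; `x = (p.1, !p.2)`: the condition says `sgb (!p.2) = - M.ep (fu Z)`
and `p' = (M.j (fu Z), !p.2)`; then `p.1 ≠ M.j (fu Z)` and the value is `- M.ep (fu Z)` if
`p.1 = M.i (fu Z)`. The two values (for `p` and `p'`) cancel: if `p` satisfies the condition with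
`G = insert p.1 (fu W)` (`G.card = a/2` by `card_W`), then `insert p'.1 (fu W) = insert (j G) (G.erase
(i G)) =: G'`, `i G' = j G = p'.1`, `j G' = i G = p.1`, `ep G' = - ep G`, `p.2 = !p'.2`. -/
theorem D6 (M : Mt a (a/2)) (ha : 4 ≤ a) (W : Finset (Gd a)) (hW : W.card = a+1) :
    ∑ x ∈ Wᶜ, k6 M W x = if none ∈ W ∧ q W = 0 then M.ep (fu W) else 0 := by
  by_cases hn : none ∈ W
  swap
  · rw [if_neg (fun h => hn h.1)]
    refine Finset.sum_eq_zero fun x _ => ?_
    rcases x with _ | ⟨l, b⟩
    · simp [k6, K6]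
    · have : none ∉ insert (some (l, b)) W := by
        rw [mem_insert]; rintro (h | h)
        · cases h
        · exact hn h
      simp [k6, K6, this]
  have hcW := card_W W
  rw [if_pos hn, hW] at hcW
  have hA : ∑ p ∈ sp W, k6 M W (some (p.1, !p.2)) = 0 := by
    by_cases hq : q W = 2
    · obtain ⟨p, p', hpp, hs⟩ := Finset.card_eq_two.1 (show (sp W).card = 2 from hq)
      have hp : p ∈ sp W := by rw [hs]; simp
      have hp' : p' ∈ sp W := by rw [hs]; simp
      have f1 : p.1 ∉ fu W := fun h => fu_not_sp h p.2 hp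
      have f2 : p'.1 ∉ fu W := fun h => fu_not_sp h p'.2 hp'
      have c1 : (insert p.1 (fu W)).card = a/2 := by rw [card_insert_of_notMem f1]; omega
      have c2 : (insert p'.1 (fu W)).card = a/2 := by rw [card_insert_of_notMem f2]; omega
      rw [hs, Finset.sum_pair hpp, D6_fill M W hn p p' hs hpp,
        D6_fill M W hn p' p (by rw [hs, Finset.pair_comm]) (fun h => hpp h.symm)]
      by_cases hc : (sgb (!p.2) = - M.ep (insert p.1 (fu W)) ∧ M.j (insert p.1 (fu W)) = p'.1 ∧
        p'.2 = (!p.2) ∧ M.i (insert p.1 (fu W)) = p.1)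
      · obtain ⟨h1, h2⟩ := D6_sym M W p p' f1 c1 hc
        rw [if_pos hc, if_pos h1, h2]; ring
      · rw [if_neg hc, if_neg, add_zero]
        intro h
        exact hc (D6_sym M W p' p f2 c2 h).1
    · refine Finset.sum_eq_zero fun p hp => ?_
      have h4 := q_of_erase hp (sp_fill hp)
      have h5 : q (insert (some (p.1, !p.2)) W) ≠ 1 := by omega
      simp [k6, K6, h5]
  have hB : ∑ e ∈ em W, (k6 M W (some (e, true)) + k6 M W (some (e, false))) =
      if q W = 0 then M.ep (fu W) else 0 := by
    by_cases hq : q W = 0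
    · rw [if_pos hq]
      have hs : sp W = ∅ := Finset.card_eq_zero.1 hq
      have hc : (fu W).card = a/2 := by omega
      have hval : ∀ e ∈ em W, ∀ b, k6 M W (some (e, b)) =
          if sgb b = - M.ep (fu W) ∧ M.j (fu W) = e then M.ep (fu W) else 0 := by
        intro e he b
        have h1 := sp_add he b
        have h2 := fu_add he b
        rw [hs] at h1
        have h4 : q (insert (some (e, b)) W) = 1 := by
          unfold q
          rw [h1]; simp
        have h5 : none ∈ insert (some (e, b)) W := mem_insert_of_mem hn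
        simp only [k6, K6, h4, h5, h1, h2, true_and]
        by_cases c1 : sgb b = - M.ep (fu W)
        · by_cases c2 : M.j (fu W) = e
          · rw [if_pos ⟨c1, by rw [c2]; simp⟩, if_pos c2.symm, if_pos ⟨c1, c2⟩]
          · rw [if_neg, if_neg (fun h => c2 h.2)]
            rintro ⟨_, h⟩
            simp at h
            exact c2 h
        · rw [if_neg (fun h => c1 h.1), if_neg (fun h => c1 h.1)]
      have hj : M.j (fu W) ∈ em W := by
        have h1 := M.hj _ hc
        rw [mem_fu] at h1
        rw [mem_em]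
        have h2 : (M.j (fu W), true) ∉ sp W := by rw [hs]; simp
        have h3 : (M.j (fu W), false) ∉ sp W := by rw [hs]; simp
        rw [mem_sp] at h2 h3
        simp at h2 h3
        tauto
      have hval2 : ∀ e ∈ em W, k6 M W (some (e, true)) + k6 M W (some (e, false)) =
          if M.j (fu W) = e then M.ep (fu W) else 0 := by
        intro e he
        rw [hval e he true, hval e he false]
        by_cases c2 : M.j (fu W) = e
        · rcases M.hep _ hc with h | h
          · simp [c2, h, sgb]
            norm_num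
          · simp [c2, h, sgb]
            norm_num
        · simp [c2]
      rw [Finset.sum_congr rfl hval2, Finset.sum_ite_eq, if_pos hj]
    · rw [if_neg hq]
      refine Finset.sum_eq_zero fun e he => ?_
      have h6 : ∀ b, k6 M W (some (e, b)) = 0 := by
        intro b
        have h4 := q_of_insert (em_not_sp he b) (sp_add he b)
        have h5 : q (insert (some (e, b)) W) ≠ 1 := by omega
        simp [k6, K6, h5]
      rw [h6, h6, add_zero]
  rw [sum_out, if_pos hn, hA, hB]
  by_cases hq : q W = 0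
  · rw [if_pos hq, if_pos ⟨hn, hq⟩]; ring
  · rw [if_neg hq, if_neg (fun h => hq h.2)]; ring

end

end E82
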