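import Pool.Agent.Lib.MP_e26f2a_co.E82.Tool2

set_option autoImplicit false

namespace E82

open Finset BG

section
variable {a : ℕ}

/-- F1. `f M U = ch U + d1 U + d2 M.ep U + d3 M.j M.ep U`. `q U = 0`: `ch U = 1`, `d1 = 0` (`a ≠ 0`),
`d3 = 0`, value `M.ep (fu U) = ±1` (`(fu U).card = a/2` by `card_W`). `q U = 1`: `sp U = {p}`,
`ch U = sgb p.2`, `d1 = 0` (`a ≠ 1`), `d2 = 0`, value `sgb p.2` or `- M.ep (fu U)` (the latter only
if `none ∉ U`, then `(fu U).card = a/2` by `card_W`: `a = 1 + 2 * (fu U).card`). `q U ≥ 2`: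
`± ch U`. -/
theorem F1 (M : Mt a (a/2)) (ha : 4 ≤ a) (U : Finset (Gd a)) (hU : U.card = a) :
    f M U = 1 ∨ f M U = -1 := by sorry

end

end E82
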