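import Pool.Agent.Lib.MP_e26f2a_co.E82.PF1

set_option autoImplicit false

namespace E82

open Finset BG

section
variable {a : ℕ}

/-- F2. `Vᶜ.card = a+2` (`Fintype.card (Gd a) = 2a+1`). It is enough to find `x1 ≠ x2 ∈ Vᶜ` with
`f M (insert x1 V) + f M (insert x2 V) = 0`: the other `a` terms are `±1` (F1). By `card_W`, `card_a`
and `V.card + 1 = a` there is an empty pair: `(em V).card ≥ 1` (if `em V = ∅` then `q + fu = a`,
`V.card ≥ a`).
Case `q V = 0`: then `V.card = [none ∈ V] + 2 * (fu V).card = a - 1`.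
  If `none ∉ V` (a odd, `(fu V).card = a/2`): take `x1 = none`: `f M (insert none V) = M.ep (fu V)`
  (q = 0), and `x2 = (M.j (fu V), true)`; `M.j (fu V) ∈ em V`; `insert x2 V` has `sp = {(j,true)}`,
  `none ∉`, so `f = 1 + 0 + 0 + (- ep - 1) = - M.ep (fu V)` (F1 computation, `d1 = 0` as `a ≠ 1`).
  If `none ∈ V`: take `e ∈ em V`, `x = (e,true), (e,false)`: `q = 1`, `none ∈`, all corrections 0:
  `f = sgb b`. Opposite.
Case `q V ≥ 1`, `e ∈ em V`: `x_b = (e,b)`, `U_b = insert x_b V`: `q U_b = q V + 1 ≥ 2`, `ch U_b = sgb b *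
  ch V`, `d2 = d3 = 0`, `d1 U_b = -2 ch U_b` iff `q V + 1 = a ∧ Pl U_b`. If `d1 U_true = 0` and
  `d1 U_false = 0`: opposite, done. If `e.val = 0`: `Pl U_b ↔ Pl V` does not depend on `b`: opposite
  again, done. Otherwise `q V + 1 = a`, `e.val ≠ 0`, and `Pl U_b` holds for `b = true` only (`(e,true)`
  must be in `U_b`), so `f U_true = - ch V`, `f U_false = - ch V`. But `none ∉ V` (Pl), and
  `f M (insert none V) = ch V` (`q (insert none V) = q V = a - 1`, not `0`, not `1`, not `a`: all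
  corrections 0; recall `a ≥ 4`). So `x1 = none`, `x2 = (e,true)` are opposite. -/
theorem F2 (M : Mt a (a/2)) (ha : 4 ≤ a) (V : Finset (Gd a)) (hV : V.card + 1 = a) :
    |∑ x ∈ Vᶜ, f M (insert x V)| ≤ (a:ℝ) := by sorry

end

end E82
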