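import Pool.Agent.Lib.MP_e26f2a_co.E82.Tool2

set_option autoImplicit false

namespace E82

open Finset BG

section
variable {a : ℕ}

/-- H0. `sh ch W = ∑ y ∈ W, ch (W.erase y)`, use `sum_in`: `ch (W.erase none) = ch W`
(`sp_erase_none`); `ch (W.erase p) = sgb p.2 * ch W` for `p ∈ sp W` (`sp_erase_split`, `ch_of_erase`);
for `l ∈ fu W`: `ch (W.erase (l,b)) = sgb (!b) * ch W` (`sp_erase_full`, `ch_of_insert`), the two
values cancel. -/
theorem H0 (W : Finset (Gd a)) :
    sh ch W = ch W * ((if none ∈ W then 1 else 0) + S W) := by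
  unfold sh
  rw [sum_in W (fun v => ch (W.erase v))]
  have h1 : ch (W.erase none) = ch W := by
    unfold ch
    rw [sp_erase_none]
  have h2 : ∑ p ∈ sp W, ch (W.erase (some p)) = S W * ch W := by
    unfold S
    rw [Finset.sum_mul]
    exact Finset.sum_congr rfl fun p hp => ch_of_erase hp (sp_erase_split hp)
  have h3 : ∑ l ∈ fu W, (ch (W.erase (some (l, true))) + ch (W.erase (some (l, false)))) = 0 := by
    refine Finset.sum_eq_zero fun l hl => ?_
    rw [ch_of_insert (fu_not_sp hl _) (sp_erase_full hl true),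
      ch_of_insert (fu_not_sp hl _) (sp_erase_full hl false)]
    simp only [Bool.not_true, Bool.not_false, sgb]
    norm_num
  rw [h1, h2, h3]
  by_cases hn : none ∈ W
  · rw [if_pos hn, if_pos hn]; ring
  · rw [if_neg hn, if_neg hn]; ring

/-- H2. `sum_in`: `none`: `q` and `fu` unchanged. `p ∈ sp W`: `q (W.erase p) = q W - 1`, so nonzero
only if `q W = 1` (then `sp W` has exactly one element and `fu` is unchanged). `l ∈ fu W`:
`q (W.erase (l,b)) = q W + 1 ≠ 0`. -/
theorem H2 (ep : Finset (Fin a) → ℝ) (W : Finset (Gd a)) :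
    sh (d2 ep) W = (if none ∈ W ∧ q W = 0 then ep (fu W) - 1 else 0) +
      (if q W = 1 then ep (fu W) - 1 else 0) := by
  unfold sh
  rw [sum_in W (fun v => d2 ep (W.erase v))]
  have h1 : (if none ∈ W then d2 ep (W.erase none) else 0) =
      if none ∈ W ∧ q W = 0 then ep (fu W) - 1 else 0 := by
    have hq : q (W.erase none) = q W := by
      unfold q
      rw [sp_erase_none]
    unfold d2
    rw [hq, fu_erase_none]
    by_cases hn : none ∈ W
    · by_cases h0 : q W = 0
      · rw [if_pos hn, if_pos h0, if_pos ⟨hn, h0⟩]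
      · rw [if_pos hn, if_neg h0, if_neg (fun hh => h0 hh.2)]
    · rw [if_neg hn, if_neg (fun hh => hn hh.1)]
  have h2 : ∑ p ∈ sp W, d2 ep (W.erase (some p)) = if q W = 1 then ep (fu W) - 1 else 0 := by
    by_cases h0 : q W = 1
    · rw [if_pos h0]
      have h4 : ∀ p ∈ sp W, d2 ep (W.erase (some p)) = ep (fu W) - 1 := by
        intro p hp
        have h5 := q_of_erase hp (sp_erase_split hp)
        unfold d2
        rw [if_pos (by omega), fu_erase_split hp]
      rw [Finset.sum_congr rfl h4, Finset.sum_const]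
      have h6 : (sp W).card = 1 := h0
      rw [h6, one_nsmul]
    · rw [if_neg h0]
      refine Finset.sum_eq_zero fun p hp => ?_
      have h5 := q_of_erase hp (sp_erase_split hp)
      unfold d2
      exact if_neg (by omega)
  have h3 : ∑ l ∈ fu W, (d2 ep (W.erase (some (l, true))) +
      d2 ep (W.erase (some (l, false)))) = 0 := by
    refine Finset.sum_eq_zero fun l hl => ?_
    have h4 := q_of_insert (fu_not_sp hl _) (sp_erase_full hl true)
    have h5 := q_of_insert (fu_not_sp hl _) (sp_erase_full hl false)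
    unfold d2
    rw [if_neg (by omega), if_neg (by omega), add_zero]
  rw [h1, h2, h3, add_zero]

end

end E82
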