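import Pool.Agent.Lib.MP_e26f2a_co.E82.Tool2

set_option autoImplicit false

namespace E82

open Finset BG

section
variable {a : ℕ}

private theorem H1_t1 (W : Finset (Gd a)) (_hn : none ∈ W) (hq : q W = a) :
    Pl (W.erase none) ↔ mn W = 0 := by
  have h2 := card_a W
  have hf : fu W = ∅ := by rw [← Finset.card_eq_zero]; omega
  have he : em W = ∅ := by rw [← Finset.card_eq_zero]; omega
  unfold mn
  rw [Finset.card_eq_zero, Finset.filter_eq_empty_iff]
  constructor
  · rintro ⟨-, h⟩ ⟨l, b⟩ hp ⟨h1, h3⟩
    simp only at h1 h3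
    subst h3
    have h4 := h l h1
    rw [Finset.mem_erase] at h4
    rw [mem_sp] at hp
    exact hp.2 h4.2
  · intro h
    refine ⟨Finset.notMem_erase _ _, fun i hi => ?_⟩
    rw [Finset.mem_erase]
    refine ⟨by simp, ?_⟩
    by_contra h3
    have h4 : i ∉ em W := by rw [he]; simp
    rw [mem_em] at h4
    have h5 : some (i, false) ∈ W := by tauto
    have h6 : (i, false) ∈ sp W := by rw [mem_sp]; exact ⟨h5, by simpa using h3⟩
    exact h h6 ⟨hi, rfl⟩

private theorem H1_pl (W : Finset (Gd a)) (l : Fin a) (b : Bool) (hl : l.val = 0) :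
    Pl (W.erase (some (l, b))) ↔ Pl W := by
  unfold Pl
  have h1 : none ∈ W.erase (some (l, b)) ↔ none ∈ W := by simp
  rw [h1]
  refine and_congr Iff.rfl (forall_congr' fun i => imp_congr_right fun hi => ?_)
  rw [Finset.mem_erase]
  constructor
  · exact fun h => h.2
  · refine fun h => ⟨?_, h⟩
    intro h2
    simp only [Option.some.injEq, Prod.mk.injEq] at h2
    exact hi (by rw [h2.1]; exact hl)

private theorem H1_t3 (ha : 4 ≤ a) (W : Finset (Gd a)) (hW : W.card = a+1) :
    ∑ l ∈ fu W, (d1 (W.erase (some (l, true))) + d1 (W.erase (some (l, false)))) =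
      (if Pl W ∧ Z0 W then -2 * ch W else 0) := by
  have hcW := card_W W
  have hca := card_a W
  have qe : ∀ l ∈ fu W, ∀ b : Bool, q (W.erase (some (l, b))) = q W + 1 := fun l hl b =>
    q_of_insert (fu_not_sp hl (!b)) (sp_erase_full hl b)
  have ce : ∀ l ∈ fu W, ∀ b : Bool, ch (W.erase (some (l, b))) = sgb (!b) * ch W := fun l hl b =>
    ch_of_insert (p := (l, !b)) (fu_not_sp hl (!b)) (sp_erase_full hl b)
  by_cases hc : Pl W ∧ Z0 W
  · rw [if_pos hc]
    obtain ⟨h1, -⟩ := PL W hW hc.1 hc.2
    have hn : none ∉ W := hc.1.1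
    rw [if_neg hn] at hcW
    have hf : (fu W).card = 1 := by omega
    obtain ⟨l, hl⟩ := Finset.card_eq_one.1 hf
    have hlf : l ∈ fu W := by rw [hl]; simp
    have hl0 : l.val ≠ 0 := by
      intro h0
      obtain ⟨p, hp, hp0⟩ := hc.2
      have : l = p.1 := Fin.ext (by omega)
      subst this
      exact fu_not_sp hlf p.2 hp
    rw [hl, Finset.sum_singleton]
    have e1 : d1 (W.erase (some (l, true))) = 0 := by
      unfold d1
      rw [if_neg]
      rintro ⟨-, h⟩
      exact absurd (h.2 l hl0) (Finset.notMem_erase _ _)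
    have e2 : d1 (W.erase (some (l, false))) = -2 * ch W := by
      unfold d1
      rw [if_pos, ce l hlf false]
      · simp [sgb]
      · refine ⟨by rw [qe l hlf]; exact h1, ?_, ?_⟩
        · intro h; exact hn (Finset.mem_of_mem_erase h)
        · intro i hi
          rw [Finset.mem_erase]
          exact ⟨by simp, hc.1.2 i hi⟩
    rw [e1, e2, zero_add]
  · rw [if_neg hc]
    refine Finset.sum_eq_zero fun l hl => ?_
    by_cases hl0 : l.val = 0
    · unfold d1
      simp only [H1_pl W l _ hl0, qe l hl, ce l hl]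
      split_ifs
      · simp [sgb]
      · simp
    · have e1 : d1 (W.erase (some (l, true))) = 0 := by
        unfold d1
        rw [if_neg]
        rintro ⟨-, h⟩
        exact absurd (h.2 l hl0) (Finset.notMem_erase _ _)
      have e2 : d1 (W.erase (some (l, false))) = 0 := by
        unfold d1
        rw [if_neg]
        rintro ⟨hq, h⟩
        rw [qe l hl] at hq
        apply hc
        have hn : none ∉ W := by
          intro h'
          exact h.1 (Finset.mem_erase.2 ⟨by simp, h'⟩)
        refine ⟨⟨hn, fun i hi => Finset.mem_of_mem_erase (h.2 i hi)⟩, ?_⟩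
        rw [if_neg hn] at hcW
        have hf : (fu W).card = 1 := by omega
        have he : (em W).card = 0 := by omega
        rw [Finset.card_eq_zero] at he
        obtain ⟨l', hl'⟩ := Finset.card_eq_one.1 hf
        have hll : l = l' := by rw [hl', Finset.mem_singleton] at hl; exact hl
        subst hll
        have z1 : (⟨0, by omega⟩ : Fin a) ∉ fu W := by
          rw [hl']
          intro h3
          rw [Finset.mem_singleton] at h3
          exact hl0 (by rw [← h3])
        have z2 : (⟨0, by omega⟩ : Fin a) ∉ em W := by rw [he]; simp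
        rw [mem_fu] at z1
        rw [mem_em] at z2
        by_cases z3 : some ((⟨0, by omega⟩ : Fin a), true) ∈ W
        · exact ⟨(⟨0, by omega⟩, true), (mem_sp _ _).2 ⟨z3, by simp; tauto⟩, rfl⟩
        · exact ⟨(⟨0, by omega⟩, false), (mem_sp _ _).2 ⟨by tauto, by simpa using z3⟩, rfl⟩
      rw [e1, e2, zero_add]

/-- H1. `sum_in` for `sh d1 W = ∑ y ∈ W, d1 (W.erase y)`, `d1 U = -2 ch U` if `q U = a ∧ Pl U`.
`q U ≤ a` always (`card_a`).
(`y = none ∈ W`): `U = W.erase none`, `q U = q W`, `ch U = ch W`; if `q W = a` then (all pairs are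
split) `Pl U ↔ mn W = 0`. So this term is the first term of the right side.
(`y = p ∈ sp W`): `q U = q W - 1 < a` so 0.
(`y = (l,b)`, `l ∈ fu W`): `q U = q W + 1`, `ch U = sgb (!b) * ch W`. Nonzero only if `q W + 1 = a`
(and `none ∉ W`). Then (`card_a`) `(fu W).card + (em W).card = 1`, so `fu W = {l}`, `em W = ∅`. If
`l.val = 0`: `Pl U` does not depend on `b`, the two values cancel (and `Z0 W` is false, because pair 0
is full: right side 0). If `l.val ≠ 0`: `Pl U` forces `b = false` (the point `(l,true)` must stay), and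
then `Pl U ↔ Pl W`, `ch U = sgb true * ch W = ch W`; pair 0 is split (`em W = ∅`, `fu W = {l}`), so
`Z0 W` holds. Conversely, if `Pl W ∧ Z0 W` then by `PL` `q W + 1 = a`, and by `card_W`
`(fu W).card = 1`. -/
theorem H1 (ha : 4 ≤ a) (W : Finset (Gd a)) (hW : W.card = a+1) :
    sh d1 W = (if none ∈ W ∧ q W = a ∧ mn W = 0 then -2 * ch W else 0) +
      (if Pl W ∧ Z0 W then -2 * ch W else 0) := by
  unfold sh
  rw [sum_in W (fun y => d1 (W.erase y)), H1_t3 ha W hW]
  congr 1
  have e2 : ∑ p ∈ sp W, d1 (W.erase (some p)) = 0 := by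
    refine Finset.sum_eq_zero fun p hp => ?_
    unfold d1
    rw [if_neg]
    rintro ⟨h, -⟩
    have h1 := q_of_erase hp (sp_erase_split hp)
    have h2 := card_a W
    omega
  rw [e2, add_zero]
  by_cases hn : none ∈ W
  · rw [if_pos hn]
    have e1 : q (W.erase none) = q W := by unfold q; rw [sp_erase_none]
    have e3 : ch (W.erase none) = ch W := by unfold ch; rw [sp_erase_none]
    unfold d1
    rw [e1, e3]
    by_cases hq : q W = a
    · simp only [hn, hq, true_and, H1_t1 W hn hq]
    · rw [if_neg (fun h => hq h.1), if_neg (fun h => hq h.2.1)]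
  · rw [if_neg hn, if_neg (fun h => hn h.1)]

end

end E82
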