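import Pool.Agent.Lib.MP_e26f2a_co.E82.Tool2

set_option autoImplicit false

namespace E82

open Finset BG

section
variable {a : ℕ}

private theorem H3_split (j : Finset (Fin a) → Fin a) (ep : Finset (Fin a) → ℝ)
    (W : Finset (Gd a)) (p : Fin a × Bool) (hp : p ∈ sp W) :
    d3 j ep (W.erase (some p)) = if none ∉ W ∧ q W = 2 then
      (∑ p' ∈ sp W, (if p'.1 = j (fu W) then - ep (fu W) - sgb p'.2 else 0)) -
        (if p.1 = j (fu W) then - ep (fu W) - sgb p.2 else 0) else 0 := by
  have hq := q_of_erase hp (sp_erase_split hp)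
  have hn : (none ∉ W.erase (some p)) ↔ none ∉ W := by simp
  unfold d3
  rw [sp_erase_split hp, fu_erase_split hp]
  by_cases h : none ∉ W ∧ q W = 2
  · have h' : none ∉ W.erase (some p) ∧ q (W.erase (some p)) = 1 := ⟨hn.2 h.1, by omega⟩
    rw [if_pos h, if_pos h', Finset.sum_erase_eq_sub hp]
  · have h' : ¬ (none ∉ W.erase (some p) ∧ q (W.erase (some p)) = 1) :=
      fun h2 => h ⟨hn.1 h2.1, by omega⟩
    rw [if_neg h, if_neg h']

private theorem H3_full (j : Finset (Fin a) → Fin a) (ep : Finset (Fin a) → ℝ)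
    (W : Finset (Gd a)) (l : Fin a) (hl : l ∈ fu W) (b : Bool) :
    d3 j ep (W.erase (some (l, b))) = if none ∉ W ∧ q W = 0 then
      (if j ((fu W).erase l) = l then - ep ((fu W).erase l) - sgb (!b) else 0) else 0 := by
  have hnl : (l, !b) ∉ sp W := fu_not_sp hl (!b)
  have hq := q_of_insert hnl (sp_erase_full hl b)
  have hn : (none ∉ W.erase (some (l, b))) ↔ none ∉ W := by simp
  unfold d3
  rw [sp_erase_full hl b, fu_erase_full hl b]
  by_cases h : none ∉ W ∧ q W = 0
  · have h' : none ∉ W.erase (some (l, b)) ∧ q (W.erase (some (l, b))) = 1 :=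
      ⟨hn.2 h.1, by omega⟩
    have h0 : sp W = ∅ := Finset.card_eq_zero.1 h.2
    rw [if_pos h, if_pos h', Finset.sum_insert hnl, h0, Finset.sum_empty, add_zero]
    by_cases h2 : j ((fu W).erase l) = l
    · rw [if_pos h2, if_pos h2.symm]
    · rw [if_neg h2, if_neg (fun h3 => h2 h3.symm)]
  · have h' : ¬ (none ∉ W.erase (some (l, b)) ∧ q (W.erase (some (l, b))) = 1) :=
      fun h2 => h ⟨hn.1 h2.1, by omega⟩
    rw [if_neg h, if_neg h']

/-- H3. `sum_in` for `sh (d3 ..) W`, `U = W.erase y`, nonzero only if `none ∉ U` and `q U = 1`.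
If `none ∈ W`: only `y = none` contributes (`q U = q W`, `sp`, `fu` unchanged): first term; the
second term is 0. If `none ∉ W`:
(`y = p ∈ sp W`): `q U = q W - 1`, so `q W = 2`; `sp U = (sp W).erase p`, `fu U = fu W`; summing over
the two `p` gives the sum of the summand over both elements of `sp W` (write `sp W = {p1, p2}`):
second term.
(`y = (l,b)`, `l ∈ fu W`): `q U = q W + 1`, so `q W = 0`, `sp U = {(l, !b)}`, `fu U = (fu W).erase l`,
value `if l = M.j ((fu W).erase l) then - M.ep ((fu W).erase l) - sgb (!b)`; sum over `b`: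
`-2 * M.ep ((fu W).erase l)`; the sum over `l` is 0 by `INV` (`(fu W).card = a/2 + 1` by `card_W`:
`a + 1 = 2 * (fu W).card`). -/
theorem H3 (M : Mt a (a/2)) (W : Finset (Gd a)) (hW : W.card = a+1) :
    sh (d3 M.j M.ep) W =
      (if none ∈ W ∧ q W = 1 then
        ∑ p ∈ sp W, (if p.1 = M.j (fu W) then - M.ep (fu W) - sgb p.2 else 0) else 0) +
      (if none ∉ W ∧ q W = 2 then
        ∑ p ∈ sp W, (if p.1 = M.j (fu W) then - M.ep (fu W) - sgb p.2 else 0) else 0) := by
  unfold sh
  rw [sum_in]
  have t1 : (if none ∈ W then d3 M.j M.ep (W.erase none) else 0) = (if none ∈ W ∧ q W = 1 then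
        ∑ p ∈ sp W, (if p.1 = M.j (fu W) then - M.ep (fu W) - sgb p.2 else 0) else 0) := by
    by_cases hn : none ∈ W
    · have hn' : none ∉ W.erase none := Finset.notMem_erase _ _
      have hq : q (W.erase none) = q W := by unfold q; rw [sp_erase_none]
      unfold d3
      rw [hq, sp_erase_none, fu_erase_none, if_pos hn]
      by_cases h1 : q W = 1
      · rw [if_pos ⟨hn', h1⟩, if_pos ⟨hn, h1⟩]
      · rw [if_neg (fun h => h1 h.2), if_neg (fun h => h1 h.2)]
    · rw [if_neg hn, if_neg (fun h => hn h.1)]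
  have t2 : ∑ p ∈ sp W, d3 M.j M.ep (W.erase (some p)) = (if none ∉ W ∧ q W = 2 then
        ∑ p ∈ sp W, (if p.1 = M.j (fu W) then - M.ep (fu W) - sgb p.2 else 0) else 0) := by
    rw [Finset.sum_congr rfl (fun p hp => H3_split M.j M.ep W p hp)]
    by_cases h : none ∉ W ∧ q W = 2
    · simp only [if_pos h]
      rw [Finset.sum_sub_distrib, Finset.sum_const, nsmul_eq_mul]
      have h2 : ((sp W).card : ℝ) = 2 := by
        have h3 : (sp W).card = 2 := h.2
        rw [h3]
        norm_num
      rw [h2]
      ring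
    · simp only [if_neg h, Finset.sum_const_zero]
  have t3 : ∑ l ∈ fu W, (d3 M.j M.ep (W.erase (some (l, true))) +
      d3 M.j M.ep (W.erase (some (l, false)))) = 0 := by
    by_cases h : none ∉ W ∧ q W = 0
    · have hc : (fu W).card = a / 2 + 1 := by
        have h1 := card_W W
        rw [hW, if_neg h.1, h.2] at h1
        omega
      have hI := INV M (fu W) hc
      have h2 : ∑ l ∈ fu W, (d3 M.j M.ep (W.erase (some (l, true))) +
          d3 M.j M.ep (W.erase (some (l, false)))) =
          (-2) * ∑ l ∈ fu W, (if M.j ((fu W).erase l) = l then M.ep ((fu W).erase l) else 0) := by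
        rw [Finset.mul_sum]
        refine Finset.sum_congr rfl fun l hl => ?_
        rw [H3_full M.j M.ep W l hl true, H3_full M.j M.ep W l hl false, if_pos h, if_pos h]
        by_cases h3 : M.j ((fu W).erase l) = l
        · rw [if_pos h3, if_pos h3, if_pos h3]
          simp only [Bool.not_true, Bool.not_false, sgb]
          norm_num
          ring
        · rw [if_neg h3, if_neg h3, if_neg h3]
          ring
      rw [h2, hI, mul_zero]
    · refine Finset.sum_eq_zero fun l hl => ?_
      rw [H3_full M.j M.ep W l hl true, H3_full M.j M.ep W l hl false, if_neg h, if_neg h, add_zero]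
  rw [t1, t2, t3, add_zero]

end

end E82
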