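import Pool.Agent.Lib.MP_e26f2a_co.E82.Tool

set_option autoImplicit false

namespace E82

open Finset

section
variable {a : ℕ}

/-- pairing at a `g+1`-set -/
theorem INV {g : ℕ} (M : Mt a g) (A : Finset (Fin a)) (hA : A.card = g+1) :
    ∑ l ∈ A, (if M.j (A.erase l) = l then M.ep (A.erase l) else 0) = 0 := by
  have key : ∀ l ∈ A, M.j (A.erase l) = l →
      M.i (A.erase l) ∈ A ∧ M.i (A.erase l) ≠ l ∧
      A.erase (M.i (A.erase l)) = insert (M.j (A.erase l)) ((A.erase l).erase (M.i (A.erase l))) := by
    intro l hl h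
    have hc : (A.erase l).card = g := by rw [Finset.card_erase_of_mem hl, hA]; rfl
    have h1 := M.hi _ hc
    rw [Finset.mem_erase] at h1
    refine ⟨h1.2, h1.1, ?_⟩
    rw [h]
    ext x
    simp only [Finset.mem_erase, Finset.mem_insert]
    constructor
    · rintro ⟨h2, h3⟩
      by_cases h4 : x = l
      · left; exact h4
      · right; exact ⟨h2, h4, h3⟩
    · rintro (h2 | ⟨h2, h3, h4⟩)
      · subst h2; exact ⟨fun h5 => h1.1 h5.symm, hl⟩
      · exact ⟨h2, h4⟩
  refine Finset.sum_involution (fun l _ => if M.j (A.erase l) = l then M.i (A.erase l) else l)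
    ?_ ?_ ?_ ?_
  · intro l hl
    by_cases h : M.j (A.erase l) = l
    · obtain ⟨h1, h2, h3⟩ := key l hl h
      have hc : (A.erase l).card = g := by rw [Finset.card_erase_of_mem hl, hA]; rfl
      simp only [h, if_true]
      rw [h3, M.hji _ hc, M.hepp _ hc]
      simp
    · simp [h]
  · intro l hl h
    by_cases h' : M.j (A.erase l) = l
    · obtain ⟨h1, h2, h3⟩ := key l hl h'
      simp only [h', if_true]
      exact h2
    · simp [h'] at h
  · intro l hl
    by_cases h : M.j (A.erase l) = l
    · simp only [h, if_true]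
      exact (key l hl h).1
    · simp only [h, if_false]; exact hl
  · intro l hl
    by_cases h : M.j (A.erase l) = l
    · obtain ⟨h1, h2, h3⟩ := key l hl h
      have hc : (A.erase l).card = g := by rw [Finset.card_erase_of_mem hl, hA]; rfl
      simp only [h, if_true]
      rw [h3, M.hji _ hc, M.hij _ hc, h]
      simp
    · simp [h]

/-- in a `Pl` set with pair 0 split, `a-1` pairs are split, the others than 0 with sign + -/
theorem PL (W : Finset (Gd a)) (hW : W.card = a+1) (h : Pl W) (h0 : Z0 W) :
    q W + 1 = a ∧ ∀ p ∈ sp W, p.1.val ≠ 0 → p.2 = true := by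
  have he : em W = ∅ := by
    rw [Finset.eq_empty_iff_forall_notMem]
    intro i hi
    by_cases hi0 : i.val = 0
    · obtain ⟨p, hp, hp0⟩ := h0
      have : i = p.1 := Fin.ext (by omega)
      subst this
      exact em_not_sp hi p.2 hp
    · exact em_not_mem hi true (h.2 i hi0)
  have h1 := card_W W
  have h2 := card_a W
  rw [he] at h2
  simp only [h.1, if_false, Finset.card_empty] at h1 h2
  refine ⟨by omega, ?_⟩
  rintro ⟨l, b⟩ hp hl
  rw [mem_sp] at hp
  cases b
  · exact absurd (h.2 l hl) (by simpa using hp.2)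
  · rfl

/-- the value at a split point of a set is a sign -/
theorem ep_abs {g : ℕ} (M : Mt a g) (G : Finset (Fin a)) (hG : G.card = g) : |M.ep G| = 1 := by
  rcases M.hep G hG with h | h <;> simp [h]

/-- `kf` at `none` is 0 -/
theorem kf_none (M : Mt a (a/2)) (W : Finset (Gd a)) : kf M W none = 0 := by
  simp [kf, k1, k2, k3, k4, k5, k6, k7, k8, K5, K6]

end

end E82
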