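import Pool.Agent.Lib.MP_e26f2a_co.E82.PM2
import Pool.Agent.Lib.MP_e26f2a_co.E82.Tool2

set_option autoImplicit false

namespace E82

open Finset BG

/-- image of a subset of `Fin a` in `ℕ` -/
def M3im {a : ℕ} (G : Finset (Fin a)) : Finset ℕ := G.map Fin.valEmbedding

theorem M3im_mem {a : ℕ} (G : Finset (Fin a)) (x : Fin a) : x.val ∈ M3im G ↔ x ∈ G := by
  simp only [M3im, Finset.mem_map, Fin.valEmbedding_apply]
  constructor
  · rintro ⟨y, hy, h⟩
    have : y = x := Fin.ext h
    rwa [← this]
  · intro h; exact ⟨x, h, rfl⟩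

theorem M3im_sub {a : ℕ} (G : Finset (Fin a)) : M3im G ⊆ range a := by
  intro x hx
  simp only [M3im, Finset.mem_map, Fin.valEmbedding_apply] at hx
  obtain ⟨y, _, h⟩ := hx
  rw [← h, mem_range]; exact y.isLt

theorem M3im_inj {a : ℕ} {G G' : Finset (Fin a)} (h : M3im G = M3im G') : G = G' :=
  Finset.map_injective _ h

theorem M3im_card {a : ℕ} (G : Finset (Fin a)) : (M3im G).card = G.card :=
  Finset.card_map _

theorem M3im_swap {a : ℕ} (G : Finset (Fin a)) (i j : Fin a) :
    M3im (insert j (G.erase i)) = insert j.val ((M3im G).erase i.val) := by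
  simp only [M3im, Finset.map_insert, Fin.valEmbedding_apply]
  congr 1
  ext x
  simp only [Finset.mem_map, Finset.mem_erase, Fin.valEmbedding_apply]
  constructor
  · rintro ⟨y, ⟨h1, h2⟩, h3⟩
    refine ⟨?_, y, h2, h3⟩
    rintro h4
    exact h1 (Fin.ext (by omega))
  · rintro ⟨h1, y, h2, h3⟩
    refine ⟨y, ⟨?_, h2⟩, h3⟩
    rintro rfl
    exact h1 h3.symm

/-- M3. Existence of the matching. -/
theorem M3 (a g : ℕ) (hg : 1 ≤ g) (hga : g < a) (he : Even (a.choose g)) :
    Nonempty (Mt a g) := by
  classical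
  obtain ⟨L, hn, hL, hc, _, _⟩ := M1 a g hga.le
  have hlen : L.length = a.choose g := by
    have h1 : L.toFinset = powersetCard g (range a) := by
      ext G
      rw [List.mem_toFinset, hL, mem_powersetCard]
    have h2 := List.toFinset_card_of_nodup hn
    rw [h1, card_powersetCard, card_range] at h2
    exact h2.symm
  obtain ⟨mu, ep, hm⟩ := M2 L hn hc (by rw [hlen]; exact he)
  have hmem : ∀ G : Finset (Fin a), G.card = g → M3im G ∈ L := by
    intro G hG
    rw [hL]; exact ⟨M3im_sub G, by rw [M3im_card, hG]⟩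
  -- choice of i, j
  have hch : ∀ G : Finset (Fin a), G.card = g → ∃ i j : Fin a, i ∈ G ∧ j ∉ G ∧
      mu (M3im G) = M3im (insert j (G.erase i)) := by
    intro G hG
    obtain ⟨h1, _, ⟨i, hi, j, hj, h2⟩, _⟩ := hm _ (hmem G hG)
    have hia : i < a := by have := M3im_sub G hi; rwa [mem_range] at this
    have hja : j < a := by
      have h3 := ((hL _).1 h1).1
      have : j ∈ mu (M3im G) := by rw [h2]; exact mem_insert_self _ _
      have := h3 this
      rwa [mem_range] at this
    refine ⟨⟨i, hia⟩, ⟨j, hja⟩, ?_, ?_, ?_⟩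
    · rw [← M3im_mem]; exact hi
    · rw [← M3im_mem]; exact hj
    · rw [M3im_swap]; exact h2
  have ha0 : 0 < a := by omega
  let fi : Finset (Fin a) → Fin a := fun G => if h : G.card = g then (hch G h).choose else ⟨0, ha0⟩
  let fj : Finset (Fin a) → Fin a := fun G =>
    if h : G.card = g then (hch G h).choose_spec.choose else ⟨0, ha0⟩
  have hf : ∀ G : Finset (Fin a), G.card = g → fi G ∈ G ∧ fj G ∉ G ∧
      mu (M3im G) = M3im (insert (fj G) (G.erase (fi G))) := by
    intro G hG
    simp only [fi, fj, hG, dif_pos]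
    exact (hch G hG).choose_spec.choose_spec
  have hcard : ∀ G : Finset (Fin a), G.card = g →
      (insert (fj G) (G.erase (fi G))).card = g := by
    intro G hG
    obtain ⟨h1, h2, _⟩ := hf G hG
    rw [card_insert_of_notMem, card_erase_of_mem h1, hG]
    · omega
    · rw [mem_erase]; tauto
  -- the matched set of the matched set
  have hback : ∀ G : Finset (Fin a), G.card = g →
      fi (insert (fj G) (G.erase (fi G))) = fj G ∧ fj (insert (fj G) (G.erase (fi G))) = fi G := by
    intro G hG
    obtain ⟨h1, h2, h3⟩ := hf G hG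
    obtain ⟨h4, h5, h6⟩ := hf _ (hcard G hG)
    set G2 := insert (fj G) (G.erase (fi G)) with hG2
    have h7 : insert (fj G2) (G2.erase (fi G2)) = G := by
      apply M3im_inj
      rw [← h6, ← h3]
      exact (hm _ (hmem G hG)).2.1
    constructor
    · -- fi G2 ∈ G2, not in G
      have h8 : fi G2 ∉ G := by
        rw [← h7, mem_insert, mem_erase]
        rintro (h9 | h9)
        · exact h5 (h9 ▸ h4)
        · exact h9.1 rfl
      have h10 := h4
      rw [hG2, mem_insert] at h10
      rcases h10 with h10 | h10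
      · exact h10
      · exact absurd (mem_of_mem_erase h10) h8
    · have h8 : fj G2 ∈ G := by rw [← h7]; exact mem_insert_self _ _
      by_contra h9
      apply h5
      rw [hG2, mem_insert, mem_erase]
      right
      exact ⟨h9, h8⟩
  refine ⟨⟨fi, fj, fun G => ep (M3im G), fun G hG => (hf G hG).1, fun G hG => (hf G hG).2.1,
    fun G hG => (hback G hG).1, fun G hG => (hback G hG).2, ?_, ?_⟩⟩
  · intro G hG; exact (hm _ (hmem G hG)).2.2.2.1
  · intro G hG
    show ep (M3im (insert (fj G) (G.erase (fi G)))) = - ep (M3im G)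
    rw [← (hf G hG).2.2]
    exact (hm _ (hmem G hG)).2.2.2.2

end E82
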