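import Pool.Agent.Lib.MP_e26f2a_co.E82.Defs
import Pool.Agent.Lib.MP_e26f2a_co.ChooseEven

set_option autoImplicit false

namespace E82

open Finset BG

/-- M4. `a = 2b` (`b ≥ 1`): `a/2 = b`, `(2b).choose b = Nat.centralBinom b` is even. `a = 2b+1`:
`a/2 = b`, `Even ((2*b+1).choose b)` is `choose_even b`. -/
theorem M4 (a : ℕ) (ha : 2 ≤ a) (h : ¬ ∃ r : ℕ, a + 1 = 2^r) : Even (a.choose (a/2)) := by
  rcases Nat.even_or_odd' a with ⟨b, hb | hb⟩
  · subst hb
    rw [Nat.mul_div_cancel_left b (by norm_num)]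
    have := Nat.two_dvd_centralBinom_of_one_le (n := b) (by omega)
    rw [Nat.centralBinom] at this
    exact even_iff_two_dvd.mpr this
  · subst hb
    rw [show (2*b+1)/2 = b by omega]
    apply OddG.choose_even b
    rintro ⟨r, hr⟩
    exact h ⟨r+1, by rw [pow_succ, ← hr]; ring⟩

end E82
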