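import Pool.Agent.Lib.MP_e26f2a_co.E82.Tool2

set_option autoImplicit false

namespace E82

open Finset BG

section
variable {a : ℕ}

/-- the value of `k1` at a full pair -/
private theorem N1_full (Z : Finset (Gd a)) {l : Fin a} (hl : l ∈ fu Z) (b : Bool) :
    k1 (Z.erase (some (l, b))) (some (l, b)) =
      if 1 ≤ q Z then sgb (!b) * (ch Z * S Z / (q Z : ℝ)) else 0 := by
  have h1 := sp_erase_full hl b
  have h2 : (l, !b) ∉ sp Z := fu_not_sp hl (!b)
  have hq := q_of_insert h2 h1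
  have hc := ch_of_insert h2 h1
  have hS := S_of_insert h2 h1
  have hm : (l, !b) ∈ sp (Z.erase (some (l, b))) := by rw [h1]; exact Finset.mem_insert_self _ _
  simp only [k1]
  by_cases h : 1 ≤ q Z
  · rw [if_pos ⟨hm, by omega⟩, if_pos h, hq, hc, hS]
    simp only
    push_cast
    have e1 : S Z + sgb (!b) - sgb (!b) = S Z := by ring
    have e2 : (q Z : ℝ) + 1 - 1 = q Z := by ring
    rw [e1, e2]
    ring
  · rw [if_neg (by rintro ⟨-, h3⟩; omega), if_neg h]

/-- N1. `dn k1 Z = ∑ x∈Z, k1 (Z.erase x) x`, `sum_in`. `none`: 0. `x = p ∈ sp Z`, `W = Z.erase p`: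
`(p.1, !p.2) ∉ sp W` (`some (p.1,!p.2) ∉ Z`), so 0. `l ∈ fu Z`, `x = (l,b)`, `W = Z.erase x`:
`sp W = insert (l,!b) (sp Z)`, `q W = q Z + 1`, `ch W = sgb (!b) * ch Z`, `S W - sgb (!b) = S Z`:
the two values are opposite. -/
theorem N1 (Z : Finset (Gd a)) : dn k1 Z = 0 := by
  unfold dn
  rw [sum_in Z (fun x => k1 (Z.erase x) x)]
  have h0 : (if none ∈ Z then k1 (Z.erase none) none else 0) = 0 := by
    split_ifs <;> simp [k1]
  have h1 : ∑ p ∈ sp Z, k1 (Z.erase (some p)) (some p) = 0 := by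
    refine Finset.sum_eq_zero fun p hp => ?_
    obtain ⟨l, b⟩ := p
    have h2 : (l, !b) ∉ sp (Z.erase (some (l, b))) := by
      rw [sp_erase_split hp]
      intro h
      exact sp_not hp (Finset.mem_of_mem_erase h)
    simp only [k1]
    rw [if_neg (fun h => h2 h.1)]
  have h3 : ∑ l ∈ fu Z, (k1 (Z.erase (some (l, true))) (some (l, true)) +
      k1 (Z.erase (some (l, false))) (some (l, false))) = 0 := by
    refine Finset.sum_eq_zero fun l hl => ?_
    rw [N1_full Z hl true, N1_full Z hl false]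
    by_cases h : 1 ≤ q Z
    · simp [h, sgb]
    · simp [h]
  rw [h0, h1, h3]
  ring

/-- the value of `k2` at a split point -/
private theorem N2_split (Z : Finset (Gd a)) {p : Fin a × Bool} (hp : p ∈ sp Z) :
    k2 (Z.erase (some p)) (some p) =
      if none ∈ Z ∧ 3 ≤ q Z ∧ q Z < a + 1 then
        ch Z * (sgb p.2 - (S Z - sgb p.2) / ((q Z : ℝ) - 1)) / ((a : ℝ) - ((q Z : ℝ) - 1))
      else 0 := by
  have h1 := sp_erase_split hp
  have hq := q_of_erase hp h1
  have hc := ch_of_erase hp h1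
  have hS := S_of_erase hp h1
  have hm : p.1 ∈ em (Z.erase (some p)) := by
    rw [em_erase_split hp]; exact Finset.mem_insert_self _ _
  have hn : none ∈ Z.erase (some p) ↔ none ∈ Z := by simp
  have hq' : (q (Z.erase (some p)) : ℝ) = (q Z : ℝ) - 1 := by
    rw [← hq]; push_cast; ring
  obtain ⟨l, b⟩ := p
  simp only [k2]
  by_cases h : none ∈ Z ∧ 3 ≤ q Z ∧ q Z < a + 1
  · rw [if_pos ⟨hn.2 h.1, hm, by omega, by omega⟩, if_pos h, hq', hc, hS]
    have e : sgb b * ch Z * (1 - sgb b * (S Z - sgb b) / ((q Z : ℝ) - 1)) =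
        ch Z * (sgb b - (sgb b * sgb b) * (S Z - sgb b) / ((q Z : ℝ) - 1)) := by ring
    simp only
    rw [e, sgb_sq, one_mul]
  · rw [if_neg (by rintro ⟨h2, -, h3, h4⟩; exact h ⟨hn.1 h2, by omega, by omega⟩), if_neg h]

/-- N2. `sum_in`. Nonzero only if `none ∈ Z` (the erased point is not `none`). `l ∈ fu Z`: `l ∉ em W`,
0. `x = p ∈ sp Z`, `W = Z.erase p`: `sp W = (sp Z).erase p`, `p.1 ∈ em W`, `q W = q Z - 1 =: r`,
`ch W = sgb p.2 * ch Z`, `S W = S Z - sgb p.2`, value (if `2 ≤ r < a`)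
`ch Z * sgb p.2 * (1 - sgb p.2 * (S Z - sgb p.2) / r) / (a - r)
  = ch Z * (sgb p.2 - (S Z - sgb p.2)/r) / (a - r)`; sum over `p ∈ sp Z` (card `r+1`):
`ch Z * (S Z - ((r+1) * S Z - S Z)/r)/(a-r) = 0`. -/
theorem N2 (Z : Finset (Gd a)) : dn k2 Z = 0 := by
  unfold dn
  rw [sum_in Z (fun x => k2 (Z.erase x) x)]
  have h0 : (if none ∈ Z then k2 (Z.erase none) none else 0) = 0 := by
    split_ifs <;> simp [k2]
  have h3 : ∑ l ∈ fu Z, (k2 (Z.erase (some (l, true))) (some (l, true)) +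
      k2 (Z.erase (some (l, false))) (some (l, false))) = 0 := by
    refine Finset.sum_eq_zero fun l hl => ?_
    have key : ∀ b : Bool, k2 (Z.erase (some (l, b))) (some (l, b)) = 0 := by
      intro b
      simp only [k2]
      rw [if_neg]
      rintro ⟨-, h, -⟩
      rw [em_erase_full hl] at h
      exact em_not_mem h true (fu_mem hl true)
    rw [key, key, add_zero]
  have h1 : ∑ p ∈ sp Z, k2 (Z.erase (some p)) (some p) = 0 := by
    rw [Finset.sum_congr rfl fun p hp => N2_split Z hp]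
    by_cases h : none ∈ Z ∧ 3 ≤ q Z ∧ q Z < a + 1
    · simp only [if_pos h]
      have hr : ((q Z : ℝ) - 1) ≠ 0 := by
        have : (3 : ℝ) ≤ q Z := by exact_mod_cast h.2.1
        intro h'
        linarith
      rw [← Finset.sum_div, ← Finset.mul_sum, Finset.sum_sub_distrib, ← Finset.sum_div,
        Finset.sum_sub_distrib, Finset.sum_const, nsmul_eq_mul]
      have e1 : ∑ p ∈ sp Z, sgb p.2 = S Z := rfl
      have e2 : (((sp Z).card : ℕ) : ℝ) = (q Z : ℝ) := rfl
      rw [e1, e2]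
      have e3 : S Z - ((q Z : ℝ) * S Z - S Z) / ((q Z : ℝ) - 1) = 0 := by
        field_simp
        ring
      rw [e3]
      simp
    · exact Finset.sum_eq_zero fun p _ => if_neg h
  rw [h0, h1, h3]
  ring

end

end E82
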