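import Pool.Agent.Lib.MP_e26f2a_co.E82.Tool2

set_option autoImplicit false

namespace E82

open Finset BG

section
variable {a : ℕ}

/-- N3. `sum_in`. `none`: 0; `x = p ∈ sp Z`: `(p.1,!p.2) ∉ sp (Z.erase p)`, 0. `l ∈ fu Z`,
`x = (l,b)`, `W_b = Z.erase x`: `sp W_b = insert (l,!b) (sp Z)`, `q W_b = q Z + 1`,
`ch W_b = sgb (!b) * ch Z`, `mn W_b = mn Z + (if l.val ≠ 0 ∧ b = true then 1 else 0)`. The two values
are opposite because `kap W_b l (!b)` does not depend on `b`: if `l.val = 0`, `mn` is the same and `kap`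
is the same. If `l.val ≠ 0`: `mn Z = 0`: `b = false` (sign + stays): `mn = 0`, `kap = 0`; `b = true`
(sign - stays): `mn = 1`, `kap = 0`. `mn Z = 1`: `b = false`: `mn = 1`, sign +, `1/a`; `b = true`:
`mn = 2`, `1/a`. `mn Z ≥ 2`: both `1/a`. -/
theorem N3 (ha : 4 ≤ a) (Z : Finset (Gd a)) : dn k3 Z = 0 := by sorry

/-- N4. `sum_in`. Only `l ∈ fu Z` with `l.val = 0` contributes (`x = p ∈ sp Z`: `(p.1,!p.2) ∉
sp (Z.erase p)`); `Pl (Z.erase (l,b)) ↔ Pl Z` when `l.val = 0`, `ch (Z.erase (l,b)) = sgb (!b) * ch Z`: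
the two values are opposite. -/
theorem N4 (Z : Finset (Gd a)) : dn k4 Z = 0 := by sorry

end

end E82
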