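import Pool.Agent.Lib.MP_e26f2a_co.E82.Tool2

set_option autoImplicit false

namespace E82

open Finset BG

section
variable {a : ℕ}

/-- N6. `k6 M (Z.erase x) x = K6 M Z x` for `x ∈ Z`. 0 unless `none ∈ Z ∧ q Z = 1`; then
`(fu Z).card = a/2` (`card_W`, `hZ`), `sp Z = {p}`. `sum_in`: at `x = p`: nonzero iff `p.1 = M.j (fu Z)`
and `sgb p.2 = - M.ep (fu Z)`, value `M.ep (fu Z)`. At `(l,b)`, `l ∈ fu Z`: `l ≠ M.j (fu Z)` (not in
`fu Z`), nonzero iff `l = M.i (fu Z)`, `b = p.2`, `p.1 = M.j (fu Z)`, `sgb b = - M.ep (fu Z)`, value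
`- M.ep (fu Z)`; `M.i (fu Z) ∈ fu Z`. Total 0. -/
theorem N6 (M : Mt a (a/2)) (Z : Finset (Gd a)) (hZ : Z.card = a+2) : dn (k6 M) Z = 0 := by sorry

end

end E82
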