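import Pool.Agent.Lib.MP_e26f2a_co.E82.Tool2

set_option autoImplicit false

namespace E82

open Finset BG

section
variable {a : ℕ}

/-- N7. `sum_in`; `x = p ∈ sp Z`: `(p.1,!p.2) ∉ sp (Z.erase p)`: 0. `l ∈ fu Z`, `x = (l,b)`,
`W = Z.erase x`, `sp W = insert (l,!b) (sp Z)`, `q W = q Z + 1`, `fu W = (fu Z).erase l`,
`none ∈ W ↔ none ∈ Z`: nonzero only if `q Z = 0`. If `none ∈ Z`: value 0 or `sgb (!b)`: the two values
cancel. If `none ∉ Z`: value `if l = M.j ((fu Z).erase l) then M.ep ((fu Z).erase l) else 0`, for both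
`b`: twice the sum of `INV` with `A = fu Z`, `A.card = a/2 + 1` (`card_W`, `hZ`). -/
theorem N7 (M : Mt a (a/2)) (Z : Finset (Gd a)) (hZ : Z.card = a+2) : dn (k7 M) Z = 0 := by sorry

/-- N8. Same: nonzero only for `x = (l,b)`, `l ∈ fu Z`, `q Z = 1`, `none ∉ Z`, and
`l = M.j ((fu Z).erase l)`, value `- M.ep ((fu Z).erase l) - sgb (!b)` (sign of the present point is
`!b`); sum over `b`: `-2 * M.ep ((fu Z).erase l)`; sum over `l`: 0 by `INV` (`(fu Z).card = a/2 + 1`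
by `card_W`: `a + 2 = 1 + 2 * (fu Z).card`). -/
theorem N8 (M : Mt a (a/2)) (Z : Finset (Gd a)) (hZ : Z.card = a+2) : dn (k8 M) Z = 0 := by sorry

end

end E82
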