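import Pool.Agent.Lib.MP_e26f2a_co.E82.PX1

set_option autoImplicit false

namespace E82

open Finset BG

/-- the pentagon sign -/
private def case6_fz (U : Finset (Fin 5)) : ℤ :=
  if ∃ x : Fin 5, U = {x, x + 1} then 1 else -1

private theorem case6_1 : ∀ V : Finset (Fin 5), V.card + 1 = 2 →
    ∑ x ∈ Vᶜ, case6_fz (insert x V) = 0 := by
  decide +kernel

private theorem case6_2 : ∀ W : Finset (Fin 5), W.card = 3 →
    case6_fz Wᶜ = ∑ v ∈ W, case6_fz (W.erase v) := by
  decide +kernel

private theorem case6_3 : ∀ Z : Finset (Fin 5), Z.card = 4 →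
    ∑ v ∈ Z, case6_fz (Z.erase v)ᶜ = 0 := by
  decide +kernel

private theorem case6_0 (U : Finset (Fin 5)) : case6_fz U = 1 ∨ case6_fz U = -1 := by
  unfold case6_fz
  split_ifs
  · exact Or.inl rfl
  · exact Or.inr rfl

/-- X2. The case `k = 6`. PROOF: `scheme` with `a = 2`, `T = Fin 5`,
`f U := 1` if `U` is `{x, x+1}` (pentagon edge), `-1` otherwise; `k W x := f Wᶜ / 2`.
(hk) for a triple `W`: `sh f W = f Wᶜ` (a triple contains 2 pentagon edges iff its complement is a
pentagon edge, else 1); (hd) for a 4-set `Z = {v}ᶜ`: `∑ x∈Z, f {v,x} / 2 = 0`; (h2) `V = {v}`: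
`∑ x∈Vᶜ, f {v,x} = 0`. All are finite checks over subsets of `Fin 5`: define an integer valued
`fz : Finset (Fin 5) → ℤ`, prove the integer statements by `decide`, and cast
(`f U = (fz U : ℝ)`, `push_cast`). -/
theorem case6 : Col 6 := by
  have h0 : ∀ U : Finset (Fin 5), |(case6_fz U : ℝ)| = 1 := by
    intro U
    rcases case6_0 U with h | h <;> rw [h] <;> simp
  refine scheme (T := Fin 5) 2 (by norm_num) (by simp) (fun U => (case6_fz U : ℝ))
    (fun W _ => (case6_fz Wᶜ : ℝ) / 2) ?_ ?_ ?_ ?_ ?_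
  · intro U _
    rcases case6_0 U with h | h
    · left; show (case6_fz U : ℝ) = 1; rw [h]; simp
    · right; show (case6_fz U : ℝ) = -1; rw [h]; simp
  · intro V hV
    have h1 : ∑ x ∈ Vᶜ, (case6_fz (insert x V) : ℝ) = 0 := by
      have := case6_1 V hV
      exact_mod_cast this
    rw [h1]
    simp
  · intro W hW
    have h1 : (case6_fz Wᶜ : ℝ) = ∑ v ∈ W, (case6_fz (W.erase v) : ℝ) := by
      have := case6_2 W hW
      exact_mod_cast this
    have hc : Wᶜ.card = 2 := by
      rw [Finset.card_compl, hW]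
      simp
    unfold sh
    rw [Finset.sum_const, hc, ← h1]
    simp
    ring
  · intro W x _ _
    rw [abs_div, h0]
    norm_num
  · intro Z hZ
    have h1 : ∑ v ∈ Z, (case6_fz (Z.erase v)ᶜ : ℝ) = 0 := by
      have := case6_3 Z hZ
      exact_mod_cast this
    unfold dn
    rw [← Finset.sum_div, h1]
    simp

end E82
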