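import Pool.Agent.Lib.MP_e26f2a_co.E82.PX1
import Pool.Agent.Lib.MP_e26f2a_co.E82.PX2
import Pool.Agent.Lib.MP_e26f2a_co.E82.PD1
import Pool.Agent.Lib.MP_e26f2a_co.E82.PD2
import Pool.Agent.Lib.MP_e26f2a_co.E82.PD5
import Pool.Agent.Lib.MP_e26f2a_co.E82.PD6
import Pool.Agent.Lib.MP_e26f2a_co.E82.PH0
import Pool.Agent.Lib.MP_e26f2a_co.E82.PH1
import Pool.Agent.Lib.MP_e26f2a_co.E82.PH3
import Pool.Agent.Lib.MP_e26f2a_co.E82.PN1
import Pool.Agent.Lib.MP_e26f2a_co.E82.PN3
import Pool.Agent.Lib.MP_e26f2a_co.E82.PN5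
import Pool.Agent.Lib.MP_e26f2a_co.E82.PN6
import Pool.Agent.Lib.MP_e26f2a_co.E82.PN7
import Pool.Agent.Lib.MP_e26f2a_co.E82.PF1
import Pool.Agent.Lib.MP_e26f2a_co.E82.PF2
import Pool.Agent.Lib.MP_e26f2a_co.E82.PB1
import Pool.Agent.Lib.MP_e26f2a_co.E82.PB2
import Pool.Agent.Lib.MP_e26f2a_co.E82.PB3
import Pool.Agent.Lib.MP_e26f2a_co.E82.PB4
import Pool.Agent.Lib.MP_e26f2a_co.E82.PM3
import Pool.Agent.Lib.MP_e26f2a_co.E82.PM4

set_option autoImplicit false
set_option linter.unusedSimpArgs false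

namespace E82

open Finset BG

/-! ## Assembly -/

theorem dn_add {T : Type} [DecidableEq T] (f g : Finset T → T → ℝ) (Z : Finset T) :
    dn (fun W x => f W x + g W x) Z = dn f Z + dn g Z := by
  unfold dn; exact Finset.sum_add_distrib

theorem kf_dn {a : ℕ} (M : Mt a (a/2)) (ha : 4 ≤ a) (Z : Finset (Gd a)) (hZ : Z.card = a+2) :
    dn (kf M) Z = 0 := by
  have h : dn (kf M) Z = dn k1 Z + dn k2 Z + dn k3 Z + dn k4 Z + dn (k5 M) Z + dn (k6 M) Z +
      dn (k7 M) Z + dn (k8 M) Z := by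
    unfold dn kf
    simp only [Finset.sum_add_distrib]
  rw [h, N1, N2, N3 ha, N4, N5 M Z hZ, N6 M Z hZ, N7 M Z hZ, N8 M Z hZ]
  ring

theorem kf_div {a : ℕ} (M : Mt a (a/2)) (ha : 4 ≤ a) (W : Finset (Gd a)) (hW : W.card = a+1) :
    ∑ x ∈ Wᶜ, kf M W x = sh (f M) W := by
  have h : ∑ x ∈ Wᶜ, kf M W x = ∑ x ∈ Wᶜ, k1 W x + ∑ x ∈ Wᶜ, k2 W x + ∑ x ∈ Wᶜ, k3 W x +
      ∑ x ∈ Wᶜ, k4 W x + ∑ x ∈ Wᶜ, k5 M W x + ∑ x ∈ Wᶜ, k6 M W x + ∑ x ∈ Wᶜ, k7 M W x +
      ∑ x ∈ Wᶜ, k8 M W x := by
    unfold kf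
    simp only [Finset.sum_add_distrib]
  have h' : sh (f M) W = sh ch W + sh d1 W + sh (d2 M.ep) W + sh (d3 M.j M.ep) W := by
    unfold sh f
    simp only [Finset.sum_add_distrib]
  rw [h, h', D1, D2 W hW, D3 ha W hW, D4, D5 M ha W hW, D6 M ha W hW, D7, D8, H0, H1 ha W hW, H2,
    H3 M W hW]
  have hq := card_a W
  have hc := card_W W
  by_cases hn : none ∈ W
  · by_cases q0 : q W = 0
    · have hs : sp W = ∅ := Finset.card_eq_zero.mp q0
      have hS : S W = 0 := by simp [S, hs]
      have hch : ch W = 1 := by simp [ch, hs]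
      have ha0 : a ≠ 0 := by omega
      have hPl : ¬ (Pl W ∧ Z0 W) := fun h => h.1.1 hn
      simp [q0, hn, hS, hch, ha0, hPl, ha0.symm]
    · by_cases q1 : q W = 1
      · obtain ⟨p, hp⟩ := Finset.card_eq_one.mp q1
        have hS : S W = sgb p.2 := by simp [S, hp]
        have hch : ch W = sgb p.2 := by simp [ch, hp]
        have ha0 : (1:ℕ) ≠ a := by omega
        have hPl : ¬ (Pl W ∧ Z0 W) := fun h => h.1.1 hn
        have := sgb_sq p.2
        simp only [q1, hn, hS, hch, hPl, hp, sum_singleton, ha0, true_and, if_true, if_false,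
          false_and, not_true, Nat.reduceLeDiff, Nat.reduceEqDiff, one_ne_zero]
        split_ifs <;> nlinarith
      · have q2 : 2 ≤ q W := by omega
        have hPl : ¬ (Pl W ∧ Z0 W) := fun h => h.1.1 hn
        by_cases qa : q W = a
        · have : ¬ q W < a := by omega
          simp only [q2, hn, hPl, q0, q1, qa, true_and, if_true, if_false, false_and, not_true,
            lt_self_iff_false, and_false]
          have e1 : ¬ a = 0 := by omega
          have e2 : ¬ a = 1 := by omega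
          have e3 : 2 ≤ a := by omega
          simp only [e1, e2, e3, if_true, if_false]
          split_ifs <;> ring
        · have : q W < a := by omega
          simp only [q2, hn, hPl, q0, q1, qa, this, true_and, and_true, if_true, if_false,
            false_and, not_true, and_false]
          ring
  · by_cases q0 : q W = 0
    · have hs : sp W = ∅ := Finset.card_eq_zero.mp q0
      have hS : S W = 0 := by simp [S, hs]
      have hch : ch W = 1 := by simp [ch, hs]
      simp [q0, hn, hS, hch]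
    · by_cases q1 : q W = 1
      · obtain ⟨p, hp⟩ := Finset.card_eq_one.mp q1
        have hS : S W = sgb p.2 := by simp [S, hp]
        have hch : ch W = sgb p.2 := by simp [ch, hp]
        have := sgb_sq p.2
        simp only [q1, hn, hS, hch, hp, sum_singleton, not_false_eq_true, true_and, if_true,
          if_false, false_and, Nat.reduceLeDiff, Nat.reduceEqDiff, one_ne_zero]
        split_ifs <;> nlinarith
      · have q2 : 2 ≤ q W := by omega
        simp only [q2, hn, q0, q1, not_false_eq_true, true_and, if_true, if_false, false_and]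
        ring

theorem kf_bd {a : ℕ} (M : Mt a (a/2)) (ha : 4 ≤ a) (W : Finset (Gd a)) (x : Gd a)
    (hW : W.card = a+1) (hx : x ∉ W) : |kf M W x| ≤ 1 := by
  rcases x with _ | ⟨l, b⟩
  · simp [kf, k1, k2, k3, k4, k5, k6, k7, k8, K5, K6]
  · by_cases h : some (l, !b) ∈ W
    · have hp : (l, !b) ∈ sp W := by
        rw [mem_sp]; simp only [Bool.not_not]; exact ⟨h, hx⟩
      have h0 : q W ≠ 0 := by
        unfold q; exact Finset.card_ne_zero_of_mem hp
      have hb : (some (l, b) : Gd a) = some ((l, !b).1, !(l, !b).2) := by simp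
      rw [hb]
      by_cases h1 : q W = 1
      · exact B1 M ha W hW _ hp h1
      · by_cases h2 : q W = 2
        · exact B2 M ha W hW _ hp h2
        · by_cases h3 : q W = 3
          · exact B3 M ha W hW _ hp h3
          · exact B4 M ha W hW _ hp (by omega)
    · have he : l ∈ em W := by
        rw [mem_em]; cases b <;> simp_all
      exact B5 M ha W hW l he b

theorem even_case (K : ℕ) (hK : 5 ≤ K) (h2 : ¬ ∃ r : ℕ, K = 2^r) : Col (2*K) := by
  obtain ⟨a, rfl⟩ : ∃ a, K = a + 1 := ⟨K - 1, by omega⟩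
  have ha : 4 ≤ a := by omega
  obtain ⟨M⟩ := M3 a (a/2) (by omega) (by omega) (M4 a (by omega) h2)
  have := scheme (T := Gd a) a (by omega) (by simp [mul_comm]) (f M) (kf M)
    (fun U hU => F1 M ha U hU) (fun V hV => F2 M ha V hV) (fun W hW => kf_div M ha W hW)
    (fun W x hW hx => kf_bd M ha W x hW hx) (fun Z hZ => kf_dn M ha Z hZ)
  rw [show 2 * (a+1) = 2*a+2 by ring]
  exact this

end E82
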