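import Pool.Agent.Lib.MP_e26f2a_co.E82.Tool2

set_option autoImplicit false

namespace E82

open Finset BG

section
variable {a : ℕ}

/-- B4a. Every pair is split (`card_a`), `q W = a`. Let `m` = number of minus signs among the pairs
different from 0, `m = mn W`; `T := S W - sgb p.2` = sum of the other `a - 1` signs; `|T| ≤ a - 1`
(`S_sub_abs`), so `-1 ≤ T/(a-1) ≤ 1`; if some point of `sp W` other than `p` has sign `-` then
`T ≤ a - 3` (two lemmas: `T = ∑ over (sp W).erase p`).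
`m = 0`: `p.1.val = 0`: `T = a - 1`, `kap = -1`, sum 0. `p.1.val ≠ 0`: `kap = 0`.
`m = 1`, `p1` the minus point: `p.1.val = 0`: `p1 ≠ p`, `T ≤ a-3`, `kap = 2/a`:
`(a-3)/(a-1) + 2/a ≤ 1` as `2/a ≤ 2/(a-1)`, and `≥ -1`. `p.1.val ≠ 0`, `p.2 = false`: `kap = 0`.
`p.1.val ≠ 0`, `p.2 = true`: `p1 ≠ p`, `T ≤ a - 3`, `kap = 1/a`.
`m ≥ 2`: some minus point `≠ p`, `T ≤ a - 3`, `kap = 1/a`. Lower bound: `T/(a-1) ≥ -1`, `kap ≥ 0`. -/
theorem B4a (ha : 4 ≤ a) (W : Finset (Gd a)) (hW : W.card = a+1) (hn : none ∈ W) (hq : q W = a)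
    (p : Fin a × Bool) (hp : p ∈ sp W) :
    |(S W - sgb p.2) / ((q W : ℝ) - 1) + kap W p.1 p.2| ≤ 1 := by sorry

end

end E82
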