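import Pool.Agent.Lib.MP_e26f2a_co.E82.Defs

set_option autoImplicit false

namespace E82

open Finset BG

/-- two sets differ by a swap -/
def Sw (G G' : Finset ℕ) : Prop := ∃ i ∈ G, ∃ j, j ∉ G ∧ G' = insert j (G.erase i)

private theorem M1_symm {G G' : Finset ℕ} (h : Sw G G') : Sw G' G := by
  obtain ⟨i, hi, j, hj, rfl⟩ := h
  refine ⟨j, mem_insert_self _ _, i, ?_, ?_⟩
  · intro h
    rcases mem_insert.1 h with h | h
    · exact hj (h ▸ hi)
    · exact (mem_erase.1 h).1 rfl
  · rw [erase_insert (fun h => hj (mem_erase.1 h).2), insert_erase hi]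

private theorem M1_ins {G G' : Finset ℕ} {m : ℕ} (h : Sw G G') (hm : m ∉ G) (hm' : m ∉ G') :
    Sw (insert m G) (insert m G') := by
  obtain ⟨i, hi, j, hj, rfl⟩ := h
  have h1 : j ≠ m := fun h => hm' (h ▸ mem_insert_self _ _)
  have h2 : i ≠ m := fun h => hm (h ▸ hi)
  refine ⟨i, mem_insert_of_mem hi, j, ?_, ?_⟩
  · intro h
    rcases mem_insert.1 h with h | h
    · exact h1 h
    · exact hj h
  · ext x
    simp only [mem_insert, mem_erase]
    constructor
    · rintro (h | h | h)
      · exact Or.inr ⟨by rw [h]; exact h2.symm, Or.inl h⟩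
      · exact Or.inl h
      · exact Or.inr ⟨h.1, Or.inr h.2⟩
    · rintro (h | ⟨h, h' | h'⟩)
      · exact Or.inr (Or.inl h)
      · exact Or.inl h'
      · exact Or.inr (Or.inr ⟨h, h'⟩)

/-- M1. Revolving door list. PROOF: induction on `n` (all `k`). `k = 0`: `[∅]` (`range 0 = ∅`).
`k = n ≥ 1`: `[range n]`, and `insert (n-1) (range (n-1)) = range n`. `0 < k < n`: let `L1 = L(n-1, k)`,
`L2 = L(n-1, k-1)` and `L = L1 ++ (L2.reverse.map (insert (n-1)))`. Members: subsets of `range n` of
size `k` without / with `n-1`. `Nodup`: `insert (n-1)` is injective on sets not containing `n-1`, the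
two halves are disjoint. Chain: `Sw` is preserved by `insert (n-1)` on both sides for subsets of
`range (n-1)`, and `Sw` is symmetric (so the reverse of a chain is a chain: `List.isChain_reverse`).
Junction: the last element of `L1` is `insert (n-2) (range (k-1))` (`k ≥ 1`), the first of the second
half is `insert (n-1)` of the last element of `L2`, which is `∅` if `k = 1` and
`insert (n-2) (range (k-2))` if `k ≥ 2`. `k = 1`: `{n-2} → {n-1}` is a swap. `k ≥ 2`:
`insert (n-2) (range (k-1)) → insert (n-1) (insert (n-2) (range (k-2)))`: remove `k-2`, add `n-1`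
(`k - 2 ≠ n - 2`). Head: `range k` (head of `L1`). Last: `insert (n-1)` of the head of `L2`,
`= insert (n-1) (range (k-1))`. (Feel free to prove a variant of the statement first, e.g. with
`List.Chain'`/explicit `getLast`.) -/
theorem M1 (n k : ℕ) (hk : k ≤ n) :
    ∃ L : List (Finset ℕ), L.Nodup ∧ (∀ G : Finset ℕ, G ∈ L ↔ G ⊆ range n ∧ G.card = k) ∧
      L.IsChain Sw ∧ L.head? = some (range k) ∧
      L.getLast? = some (if k = 0 then ∅ else insert (n-1) (range (k-1))) := by
  induction n generalizing k with
  | zero =>
    obtain rfl : k = 0 := by omega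
    refine ⟨[∅], by simp, fun G => ?_, by simp, by simp, by simp⟩
    simp only [List.mem_singleton, range_zero, subset_empty]
    exact ⟨fun h => ⟨h, by rw [h]; rfl⟩, fun h => h.1⟩
  | succ m ih =>
    rcases Nat.eq_zero_or_pos k with rfl | hk0
    · refine ⟨[∅], by simp, fun G => ?_, by simp, by simp, by simp⟩
      simp only [List.mem_singleton, card_eq_zero]
      exact ⟨fun h => ⟨by rw [h]; simp, h⟩, fun h => h.2⟩
    rcases Nat.lt_or_ge m k with hmk | hmk
    · obtain rfl : k = m + 1 := by omega
      refine ⟨[range (m+1)], by simp, fun G => ?_, by simp, by simp, ?_⟩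
      · simp only [List.mem_singleton]
        constructor
        · rintro rfl
          exact ⟨subset_rfl, card_range _⟩
        · rintro ⟨h1, h2⟩
          exact eq_of_subset_of_card_le h1 (by rw [h2, card_range])
      · simp [range_add_one]
    obtain ⟨L1, a1, a2, a3, a4, a5⟩ := ih k hmk
    obtain ⟨L2, b1, b2, b3, b4, b5⟩ := ih (k-1) (by omega)
    rw [if_neg (by omega)] at a5
    have hm2 : ∀ G ∈ L2, m ∉ G := by
      intro G hG h
      have := ((b2 G).1 hG).1 h
      simp at this
    have hm1 : ∀ G ∈ L1, m ∉ G := by
      intro G hG h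
      have := ((a2 G).1 hG).1 h
      simp at this
    refine ⟨L1 ++ L2.reverse.map (insert m), ?_, ?_, ?_, ?_, ?_⟩
    · rw [List.nodup_append]
      refine ⟨a1, ?_, ?_⟩
      · refine List.Nodup.map_on ?_ (List.nodup_reverse.2 b1)
        intro x hx y hy hxy
        rw [List.mem_reverse] at hx hy
        rw [← erase_insert (hm2 x hx), hxy, erase_insert (hm2 y hy)]
      · intro x hx y hy hxy
        subst hxy
        obtain ⟨z, _, hz⟩ := List.mem_map.1 hy
        exact hm1 x hx (by rw [← hz]; exact mem_insert_self _ _)
    · intro G
      rw [List.mem_append, a2, List.mem_map]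
      constructor
      · rintro (⟨h1, h2⟩ | ⟨z, hz, rfl⟩)
        · exact ⟨h1.trans (range_subset_range.2 (Nat.le_succ m)), h2⟩
        · rw [List.mem_reverse] at hz
          obtain ⟨h1, h2⟩ := (b2 z).1 hz
          refine ⟨?_, ?_⟩
          · rw [range_add_one]
            exact insert_subset_insert m h1
          · rw [card_insert_of_notMem (hm2 z hz), h2]; omega
      · rintro ⟨h1, h2⟩
        by_cases hm : m ∈ G
        · right
          refine ⟨G.erase m, ?_, insert_erase hm⟩
          rw [List.mem_reverse, b2]
          refine ⟨?_, by rw [card_erase_of_mem hm, h2]⟩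
          intro x hx
          have h3 := mem_erase.1 hx
          have h4 := mem_range.1 (h1 h3.2)
          rw [mem_range]
          have := h3.1
          omega
        · left
          refine ⟨?_, h2⟩
          intro x hx
          have h4 := mem_range.1 (h1 hx)
          have h5 : x ≠ m := fun h => hm (h ▸ hx)
          rw [mem_range]; omega
    · refine List.IsChain.append a3 ?_ ?_
      · rw [List.isChain_map]
        have h1 : List.IsChain Sw L2.reverse := by
          rw [List.isChain_reverse]
          exact b3.imp fun _ _ h => M1_symm h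
        refine h1.imp_of_mem_imp ?_
        intro x y hx hy h
        rw [List.mem_reverse] at hx hy
        exact M1_ins h (hm2 x hx) (hm2 y hy)
      · intro x hx y hy
        rw [a5] at hx
        rw [List.head?_map, List.head?_reverse, b5] at hy
        simp only [Option.mem_def, Option.some.injEq, Option.map_some] at hx hy
        subst hx
        subst hy
        by_cases hk1 : k = 1
        · subst hk1
          refine ⟨m-1, by simp, m, by simp; omega, ?_⟩
          simp
        · rw [if_neg (by omega)]
          refine ⟨k-2, ?_, m, ?_, ?_⟩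
          · rw [mem_insert, mem_range]; omega
          · rw [mem_insert, mem_range]; omega
          · ext x
            simp only [mem_insert, mem_erase, mem_range]
            omega
    · rw [List.head?_append, a4]; simp
    · rw [List.getLast?_append, List.getLast?_map, List.getLast?_reverse, b4]
      rw [if_neg (by omega)]
      simp

end E82
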