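import Pool.Agent.Lib.MP_e26f2a_co.E82.PM1

set_option autoImplicit false

namespace E82

open Finset BG

/-- M2. Even chain to matching. PROOF: induction on the length in steps of 2: `L = G1 :: G2 :: L'`,
`L'` has even length, is a chain and nodup; put `mu G1 = G2`, `mu G2 = G1`, `ep G1 = 1`, `ep G2 = -1`,
elsewhere the functions of `L'` (`Function.update` or `if`). `Sw G1 G2` from the chain, `Sw G2 G1` by
symmetry (`G2 = insert j (G1.erase i)` gives `G1 = insert i (G2.erase j)`), `G1 ≠ G2` and both are not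
in `L'` by nodup. -/
theorem M2 (L : List (Finset ℕ)) (hn : L.Nodup) (hc : L.IsChain Sw) (he : Even L.length) :
    ∃ (mu : Finset ℕ → Finset ℕ) (ep : Finset ℕ → ℝ),
      (∀ G ∈ L, mu G ∈ L ∧ mu (mu G) = G ∧ Sw G (mu G) ∧ (ep G = 1 ∨ ep G = -1) ∧
        ep (mu G) = - ep G) := by sorry

end E82
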