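import Pool.Agent.Lib.MP_e26f2a_co.E82.Tool2

set_option autoImplicit false

namespace E82

open Finset BG

section
variable {a : ℕ}

/-- N5. `k5 M (Z.erase x) x = K5 M Z x` for `x ∈ Z` (`Finset.insert_erase`). 0 unless `q Z = 2`. Then
`(fu Z).card = a/2` (`card_W`, `hZ`). `sum_in`. Write `sp Z = {p1, p2}`, `p1 ≠ p2`, `p1.1 ≠ p2.1`
(`sp_inj`). Let `G = fu Z`, `j = M.j G ∉ G`, `i = M.i G ∈ G`. Sum over `sp Z`: the value at `p ∈ sp Z` is
`M.ep G` if `p.1 = j` and the other point has sign `!p.2` (second branch impossible: `p.1 ∉ fu Z`).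
Sum over `l ∈ fu Z`: first branch impossible (`(l,b) ∉ sp Z`, `fu_not_sp`); second: `l = i`,
`(j, !b) ∈ sp Z` and the other point has sign `b`: value `- M.ep G`; for `l = i` exactly one `b` if
`j` is a split pair and the signs are opposite, no `b` otherwise. Total 0. -/
theorem N5 (M : Mt a (a/2)) (Z : Finset (Gd a)) (hZ : Z.card = a+2) : dn (k5 M) Z = 0 := by sorry

end

end E82
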