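import Pool.Agent.Lib.MP_e26f2a_co.E82.Tool2
import Pool.Agent.Lib.MP_e26f2a_co.BG.Interface

set_option autoImplicit false

namespace E82

open Finset BG

private theorem scheme_erase_compl {T : Type} [Fintype T] [DecidableEq T] (X : Finset T) (x : T) :
    (X.erase x)ᶜ = insert x Xᶜ := by
  ext y
  simp only [mem_compl, mem_erase, mem_insert]
  tauto

/-- the function `a` of the interface -/
private noncomputable def schA {T : Type} [Fintype T] [DecidableEq T] (a : ℕ) (f : Finset T → ℝ)
    (k : Finset T → T → ℝ) (X V : Finset T) (x : T) : ℝ :=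
  if X.card = a ∧ V.card = a + 1 then f X * f Vᶜ
  else if X.card = a + 1 ∧ V.card = a + 1 then f Xᶜ * sh f V / (a:ℝ)
  else if X.card = a + 1 ∧ V.card = a + 2 then k X x * (∑ y ∈ Vᶜᶜ, f (insert y Vᶜ)) / (a:ℝ) else 0

/-- the function `b` of the interface -/
private noncomputable def schB {T : Type} [Fintype T] [DecidableEq T] (a : ℕ) (f : Finset T → ℝ)
    (k : Finset T → T → ℝ) (X V : Finset T) (v : T) : ℝ :=
  if X.card = a + 1 ∧ V.card = a then - (f Xᶜ * f V)
  else if X.card = a + 1 ∧ V.card = a + 1 then - (sh f X * f Vᶜ) / (a:ℝ)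
  else if X.card = a + 2 ∧ V.card = a + 1 then - (∑ y ∈ Xᶜᶜ, f (insert y Xᶜ)) * k V v / (a:ℝ) else 0

section
variable {T : Type} [Fintype T] [DecidableEq T] {a : ℕ} {f : Finset T → ℝ} {k : Finset T → T → ℝ}

private theorem schA1 {X V : Finset T} (h1 : X.card = a) (h2 : V.card = a + 1) (x : T) :
    schA a f k X V x = f X * f Vᶜ := if_pos ⟨h1, h2⟩

private theorem schA2 {X V : Finset T} (h1 : X.card = a + 1) (h2 : V.card = a + 1) (x : T) :
    schA a f k X V x = f Xᶜ * sh f V / (a:ℝ) := by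
  unfold schA
  rw [if_neg (by omega), if_pos ⟨h1, h2⟩]

private theorem schA3 {X V : Finset T} (h1 : X.card = a + 1) (h2 : V.card = a + 2) (x : T) :
    schA a f k X V x = k X x * (∑ y ∈ Vᶜᶜ, f (insert y Vᶜ)) / (a:ℝ) := by
  unfold schA
  rw [if_neg (by omega), if_neg (by omega), if_pos ⟨h1, h2⟩]

private theorem schA0 {X V : Finset T} (h1 : a + 2 ≤ X.card ∨ a + 3 ≤ V.card) (x : T) :
    schA a f k X V x = 0 := by
  unfold schA
  rw [if_neg (by omega), if_neg (by omega), if_neg (by omega)]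

private theorem schB1 {X V : Finset T} (h1 : X.card = a + 1) (h2 : V.card = a) (v : T) :
    schB a f k X V v = - (f Xᶜ * f V) := if_pos ⟨h1, h2⟩

private theorem schB2 {X V : Finset T} (h1 : X.card = a + 1) (h2 : V.card = a + 1) (v : T) :
    schB a f k X V v = - (sh f X * f Vᶜ) / (a:ℝ) := by
  unfold schB
  rw [if_neg (by omega), if_pos ⟨h1, h2⟩]

private theorem schB3 {X V : Finset T} (h1 : X.card = a + 2) (h2 : V.card = a + 1) (v : T) :
    schB a f k X V v = - (∑ y ∈ Xᶜᶜ, f (insert y Xᶜ)) * k V v / (a:ℝ) := by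
  unfold schB
  rw [if_neg (by omega), if_neg (by omega), if_pos ⟨h1, h2⟩]

private theorem schB0 {X V : Finset T} (h1 : a + 3 ≤ X.card ∨ a + 2 ≤ V.card) (v : T) :
    schB a f k X V v = 0 := by
  unfold schB
  rw [if_neg (by omega), if_neg (by omega), if_neg (by omega)]

private theorem scheme_div {x y : ℝ} (ha : 1 ≤ a) (hx : |x| ≤ 1) (hy : |y| ≤ (a:ℝ)) :
    |x * y / (a:ℝ)| ≤ 1 := by
  have ha0 : (0:ℝ) < a := by exact_mod_cast ha
  rw [abs_div, abs_mul, abs_of_pos ha0, div_le_one ha0]
  calc |x| * |y| ≤ 1 * (a:ℝ) := mul_le_mul hx hy (abs_nonneg _) (by norm_num)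
    _ = a := one_mul _

private theorem scheme_sh (hT : Fintype.card T = 2*a+1)
    (hk : ∀ W : Finset T, W.card = a+1 → ∑ x ∈ Wᶜ, k W x = sh f W)
    (hb : ∀ (W : Finset T) (x : T), W.card = a+1 → x ∉ W → |k W x| ≤ 1)
    {W : Finset T} (hW : W.card = a + 1) : |sh f W| ≤ (a:ℝ) := by
  rw [← hk W hW]
  refine (Finset.abs_sum_le_sum_abs _ _).trans ?_
  have h1 : ∑ x ∈ Wᶜ, |k W x| ≤ ∑ x ∈ Wᶜ, (1:ℝ) :=
    Finset.sum_le_sum fun x hx => hb W x hW (mem_compl.1 hx)
  refine h1.trans ?_
  have h2 := Finset.card_add_card_compl W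
  have h3 : Wᶜ.card = a := by omega
  rw [Finset.sum_const, h3, nsmul_eq_mul, mul_one]

end

/-- X1. One function `f` and one flow `k` give the colouring of `O_{2a+2}`. PROOF (complete): apply
`BG.interface` with `P = N = T`, `n = 2*a+1`, `e = 0` and, with `R := (a:ℝ)`, `df W := sh f W`,
`ds V := ∑ x ∈ Vᶜ, f (insert x V)` (sum over the supersets), the following data. Put
`t = X.card + V.card`.
 * `γ X V := f X * f Vᶜ`;
 * `a X V x :=` if `X.card = a` and `V.card = a+1` then `γ X V` (tie);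
      else if `X.card = a+1` and `V.card = a+1` then `f Xᶜ * df V / a`;
      else if `X.card = a+1` and `V.card = a+2` then `k X x * ds Vᶜ / a`; else `0`;
 * `b X V v :=` if `X.card = a+1` and `V.card = a` then `- γ Xᶜ Vᶜ = - f Xᶜ * f V` (tie)
      else if `X.card = a+1` and `V.card = a+1` then `- df X * f Vᶜ / a`;
      else if `X.card = a+2` and `V.card = a+1` then `- ds Xᶜ * k V v / a`; else `0`;
 * `s := 0`.
Facts: `|df W| ≤ a` for `W.card = a+1` (hk, hb and `Wᶜ.card = a`), `|ds V| ≤ a` for `V.card+1 = a`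
(h2; `Vᶜ` of an `a+2`-set has `a-1` elements).
Conditions: (n0) `X.card = V.card = c`, `2c > 2a+1`, so `c ≥ a+1`. If `c = a+1`: the first sum is
`a * (f Xᶜ * df V / a) = f Xᶜ * df V` (`Xᶜ.card = a`), the second is `∑ v∈V, - f Xᶜ * f (V.erase v) =
- f Xᶜ * df V` (`(X.card, (V.erase v).card) = (a+1, a)`, tie of `b`). If `c = a+2`: the first sum is 0,
the second is `∑ v∈V, - ds Xᶜ * k (V.erase v) v / a = - ds Xᶜ / a * dn k V = 0` (hd). If `c ≥ a+3`: 0.
(n1) `V.card = X.card + 1`, sum `> 2a+1`: `X.card ≥ a+1`. If `X.card = a+1, V.card = a+2`: first sum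
`= ds Vᶜ / a * ∑ x∈Xᶜ, k X x = ds Vᶜ * df X / a` (hk); second `∑ v∈V, - df X * f (V.erase v)ᶜ / a` and
`(V.erase v)ᶜ = insert v Vᶜ`, `∑ v∈V, f (insert v Vᶜ) = ds Vᶜ`. Sum 0. Otherwise 0.
(p0), (p1): mirror images: (p0) `c = a+1`: `∑ x∈X, a (X.erase x) V x = ∑ f (X.erase x) * f Vᶜ = df X * f Vᶜ`
and `∑ v∈Vᶜ, - df X * f Vᶜ / a = - df X * f Vᶜ`; `c = a+2`: `∑ x∈X, k (X.erase x) x * ds Vᶜ / a = 0`.
(p1) `X.card = a+2, V.card = a+1`: `∑ x∈X, f (X.erase x)ᶜ * df V / a = ds Xᶜ * df V / a` and
`∑ v∈Vᶜ, - ds Xᶜ * k V v / a = - ds Xᶜ * df V / a`.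
Ties: `n = 2a+1 = X.card + V.card` and `V.card = X.card + 1` give `(a, a+1)` (the alternative
`V.card = X.card` is impossible by parity, so `ts` is vacuous). -/
theorem scheme {T : Type} [Fintype T] [DecidableEq T] (a : ℕ) (ha : 1 ≤ a)
    (hT : Fintype.card T = 2*a+1) (f : Finset T → ℝ) (k : Finset T → T → ℝ)
    (hf : ∀ U : Finset T, U.card = a → f U = 1 ∨ f U = -1)
    (h2 : ∀ V : Finset T, V.card + 1 = a → |∑ x ∈ Vᶜ, f (insert x V)| ≤ (a:ℝ))
    (hk : ∀ W : Finset T, W.card = a+1 → ∑ x ∈ Wᶜ, k W x = sh f W)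
    (hb : ∀ (W : Finset T) (x : T), W.card = a+1 → x ∉ W → |k W x| ≤ 1)
    (hd : ∀ Z : Finset T, Z.card = a+2 → dn k Z = 0) :
    Col (2*a+2) := by
  have ha0 : (a:ℝ) ≠ 0 := by
    have : 0 < a := ha
    exact_mod_cast this.ne'
  have hc : ∀ X : Finset T, X.card + Xᶜ.card = 2 * a + 1 := by
    intro X
    rw [← hT]
    exact Finset.card_add_card_compl X
  have hf1 : ∀ U : Finset T, U.card = a → |f U| = 1 := by
    intro U hU
    rcases hf U hU with h | h <;> rw [h] <;> norm_num
  have hds : ∀ V : Finset T, V.card = a + 2 → |∑ y ∈ Vᶜᶜ, f (insert y Vᶜ)| ≤ (a:ℝ) := by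
    intro V hV
    have := hc V
    exact h2 Vᶜ (by omega)
  have hsh : ∀ W : Finset T, W.card = a + 1 → |sh f W| ≤ (a:ℝ) := fun W hW =>
    scheme_sh hT hk hb hW
  have hpm : ∀ U V : Finset T, U.card = a → V.card = a → f U * f V = 1 ∨ f U * f V = -1 := by
    intro U V hU hV
    rcases hf U hU with h | h <;> rcases hf V hV with h' | h' <;> rw [h, h'] <;> norm_num
  have hce : ∀ (X : Finset T) (x : T), x ∈ X → (X.erase x).card + 1 = X.card :=
    fun X x hx => Finset.card_erase_add_one hx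
  change Col (2 * a + 1 + 1)
  refine interface (P := T) (N := T) (2 * a + 1) 0 hT hT (by omega) (by omega)
    (schA a f k) (schB a f k) (fun _ _ => 0) (fun X V => f X * f Vᶜ)
    ?_ ?_ ?_ ?_ ?_ ?_ ?_ ?_ ?_ ?_ ?_
  · -- ba
    intro X V x h1 h3 hx
    have hX := hc X
    have hV := hc V
    by_cases c1 : X.card = a
    · rw [schA1 c1 (by omega), abs_mul, hf1 X c1, hf1 Vᶜ (by omega)]
      norm_num
    · by_cases c2 : X.card = a + 1
      · rcases h3 with h3 | h3
        · rw [schA2 c2 (by omega)]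
          exact scheme_div ha (hf1 Xᶜ (by omega)).le (hsh V (by omega))
        · rw [schA3 c2 (by omega)]
          exact scheme_div ha (hb X x c2 hx) (hds V (by omega))
      · rw [schA0 (by omega), abs_zero]
        norm_num
  · -- bb
    intro X V v h1 h3 hv
    have hX := hc X
    have hV := hc V
    by_cases c1 : V.card = a
    · rw [schB1 (by omega) c1, abs_neg, abs_mul, hf1 Xᶜ (by omega), hf1 V c1]
      norm_num
    · by_cases c2 : V.card = a + 1
      · rcases h3 with h3 | h3
        · rw [schB2 (by omega) c2, neg_div, abs_neg, mul_comm (sh f X)]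
          exact scheme_div ha (hf1 Vᶜ (by omega)).le (hsh X (by omega))
        · rw [schB3 (by omega) c2, neg_mul, neg_div, abs_neg, mul_comm (∑ y ∈ Xᶜᶜ, _)]
          exact scheme_div ha (hb V v c2 hv) (hds X (by omega))
      · rw [schB0 (by omega), abs_zero]
        norm_num
  · -- bs
    intro X V _ _
    rw [abs_zero]
    norm_num
  · -- n0
    intro X V h1 h3
    have hX := hc X
    rw [Nat.cast_zero, add_zero]
    by_cases c1 : X.card = a + 1
    · have e1 : ∑ x ∈ Xᶜ, schA a f k X V x = f Xᶜ * sh f V := by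
        rw [Finset.sum_congr rfl fun x _ => schA2 c1 (by omega) x, Finset.sum_const,
          show Xᶜ.card = a by omega, nsmul_eq_mul, mul_div_cancel₀ _ ha0]
      have e2 : ∑ v ∈ V, schB a f k X (V.erase v) v = - (f Xᶜ * sh f V) := by
        rw [Finset.sum_congr rfl fun v hv => schB1 c1 (by have := hce V v hv; omega) v,
          Finset.sum_neg_distrib, ← Finset.mul_sum]
        rfl
      rw [e1, e2]
      ring
    · have e1 : ∑ x ∈ Xᶜ, schA a f k X V x = 0 :=
        Finset.sum_eq_zero fun x _ => schA0 (by omega) x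
      have e2 : ∑ v ∈ V, schB a f k X (V.erase v) v = 0 := by
        by_cases c2 : X.card = a + 2
        · rw [Finset.sum_congr rfl fun v hv => schB3 c2 (by have := hce V v hv; omega) v,
            ← Finset.sum_div, ← Finset.mul_sum]
          have := hd V (by omega)
          unfold dn at this
          rw [this, mul_zero, zero_div]
        · exact Finset.sum_eq_zero fun v _ => schB0 (by omega) v
      rw [e1, e2, add_zero]
  · -- n1
    intro X V h1 h3
    have hX := hc X
    rw [Nat.cast_zero]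
    by_cases c1 : X.card = a + 1
    · have e1 : ∑ x ∈ Xᶜ, schA a f k X V x = sh f X * (∑ y ∈ Vᶜᶜ, f (insert y Vᶜ)) / (a:ℝ) := by
        rw [Finset.sum_congr rfl fun x _ => schA3 c1 (by omega) x, ← Finset.sum_div,
          ← Finset.sum_mul, hk X c1]
      have e2 : ∑ v ∈ V, schB a f k X (V.erase v) v =
          - (sh f X * (∑ y ∈ Vᶜᶜ, f (insert y Vᶜ))) / (a:ℝ) := by
        rw [Finset.sum_congr rfl fun v hv => schB2 c1 (by have := hce V v hv; omega) v,
          ← Finset.sum_div, Finset.sum_neg_distrib, ← Finset.mul_sum, compl_compl]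
        congr 3
        exact Finset.sum_congr rfl fun v _ => by rw [scheme_erase_compl]
      rw [e1, e2]
      ring
    · rw [Finset.sum_eq_zero fun x _ => schA0 (by omega) x,
        Finset.sum_eq_zero fun v hv => schB0 (by have := hce V v hv; omega) v, add_zero]
  · -- p0
    intro X V h1 h3
    have hV := hc V
    rw [Nat.cast_zero, add_zero]
    by_cases c1 : X.card = a + 1
    · have e1 : ∑ x ∈ X, schA a f k (X.erase x) V x = sh f X * f Vᶜ := by
        rw [Finset.sum_congr rfl fun x hx => schA1 (by have := hce X x hx; omega) (by omega) x,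
          ← Finset.sum_mul]
        rfl
      have e2 : ∑ v ∈ Vᶜ, schB a f k X V v = - (sh f X * f Vᶜ) := by
        rw [Finset.sum_congr rfl fun v _ => schB2 c1 (by omega) v, Finset.sum_const,
          show Vᶜ.card = a by omega, nsmul_eq_mul, mul_div_cancel₀ _ ha0]
      rw [e1, e2]
      ring
    · have e2 : ∑ v ∈ Vᶜ, schB a f k X V v = 0 :=
        Finset.sum_eq_zero fun v _ => schB0 (by omega) v
      have e1 : ∑ x ∈ X, schA a f k (X.erase x) V x = 0 := by
        by_cases c2 : X.card = a + 2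
        · rw [Finset.sum_congr rfl fun x hx => schA3 (by have := hce X x hx; omega) (by omega) x,
            ← Finset.sum_div, ← Finset.sum_mul]
          have := hd X (by omega)
          unfold dn at this
          rw [this, zero_mul, zero_div]
        · exact Finset.sum_eq_zero fun x _ => schA0 (by omega) x
      rw [e1, e2, add_zero]
  · -- p1
    intro X V h1 h3
    have hV := hc V
    rw [Nat.cast_zero]
    by_cases c1 : V.card = a + 1
    · have e1 : ∑ x ∈ X, schA a f k (X.erase x) V x =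
          (∑ y ∈ Xᶜᶜ, f (insert y Xᶜ)) * sh f V / (a:ℝ) := by
        rw [Finset.sum_congr rfl fun x hx => schA2 (by have := hce X x hx; omega) c1 x,
          ← Finset.sum_div, ← Finset.sum_mul, compl_compl]
        congr 2
        exact Finset.sum_congr rfl fun x _ => by rw [scheme_erase_compl]
      have e2 : ∑ v ∈ Vᶜ, schB a f k X V v =
          - (∑ y ∈ Xᶜᶜ, f (insert y Xᶜ)) * sh f V / (a:ℝ) := by
        rw [Finset.sum_congr rfl fun v _ => schB3 (by omega) c1 v, ← Finset.sum_div,
          ← Finset.mul_sum, hk V c1]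
      rw [e1, e2]
      ring
    · rw [Finset.sum_eq_zero fun x hx => schA0 (by have := hce X x hx; omega) x,
        Finset.sum_eq_zero fun v _ => schB0 (by omega) v, add_zero]
  · -- hγ
    intro X V h1 h3
    have hV := hc V
    exact hpm X Vᶜ (by omega) (by omega)
  · -- ta
    intro X V h1 h3 x _
    exact schA1 (by omega) (by omega) x
  · -- tb
    intro X V h1 h3 v _
    rw [schB1 (by omega) (by omega), compl_compl]
  · -- ts
    intro X V h1 h3
    omega

end E82
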