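import Pool.Agent.Lib.MP_e26f2a_co.E82.Defs

set_option autoImplicit false

namespace E82

open Finset

section
variable {a : ℕ}

theorem mem_sp (W : Finset (Gd a)) (p : Fin a × Bool) :
    p ∈ sp W ↔ some p ∈ W ∧ some (p.1, !p.2) ∉ W := by simp [sp]

theorem mem_fu (W : Finset (Gd a)) (i : Fin a) :
    i ∈ fu W ↔ some (i, true) ∈ W ∧ some (i, false) ∈ W := by simp [fu]

theorem mem_em (W : Finset (Gd a)) (i : Fin a) :
    i ∈ em W ↔ some (i, true) ∉ W ∧ some (i, false) ∉ W := by simp [em]

/-- in a full pair both points are in `W` -/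
theorem fu_mem {W : Finset (Gd a)} {l : Fin a} (h : l ∈ fu W) (b : Bool) : some (l, b) ∈ W := by
  rw [mem_fu] at h; cases b <;> tauto

theorem em_not_mem {W : Finset (Gd a)} {l : Fin a} (h : l ∈ em W) (b : Bool) :
    some (l, b) ∉ W := by
  rw [mem_em] at h; cases b <;> tauto

theorem fu_not_sp {W : Finset (Gd a)} {l : Fin a} (h : l ∈ fu W) (b : Bool) : (l, b) ∉ sp W := by
  rw [mem_sp]; rw [mem_fu] at h; cases b <;> simp <;> tauto

theorem em_not_sp {W : Finset (Gd a)} {l : Fin a} (h : l ∈ em W) (b : Bool) : (l, b) ∉ sp W := by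
  rw [mem_sp]; rw [mem_em] at h; cases b <;> simp <;> tauto

theorem sp_not {W : Finset (Gd a)} {p : Fin a × Bool} (h : p ∈ sp W) : (p.1, !p.2) ∉ sp W := by
  rw [mem_sp] at *; simp; tauto

/-- a pair with two points in `sp` does not exist -/
theorem sp_inj {W : Finset (Gd a)} {p p' : Fin a × Bool} (h : p ∈ sp W) (h' : p' ∈ sp W)
    (e : p.1 = p'.1) : p = p' := by
  rw [mem_sp] at *
  obtain ⟨l, b⟩ := p
  obtain ⟨l', b'⟩ := p'
  simp only at e
  subst e
  cases b <;> cases b' <;> simp_all

/-! ### erasing a point -/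

theorem sp_erase_split {W : Finset (Gd a)} {p : Fin a × Bool} (hp : p ∈ sp W) :
    sp (W.erase (some p)) = (sp W).erase p := by
  obtain ⟨l, b⟩ := p
  rw [mem_sp] at hp
  ext ⟨l', b'⟩
  simp only [mem_sp, mem_erase, ne_eq, Option.some.injEq, Prod.mk.injEq] at *
  by_cases h : l' = l
  · subst h; cases b <;> cases b' <;> simp_all
  · simp_all

theorem fu_erase_split {W : Finset (Gd a)} {p : Fin a × Bool} (hp : p ∈ sp W) :
    fu (W.erase (some p)) = fu W := by
  obtain ⟨l, b⟩ := p
  rw [mem_sp] at hp
  ext l'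
  simp only [mem_fu, mem_erase, ne_eq, Option.some.injEq, Prod.mk.injEq] at *
  by_cases h : l' = l
  · subst h; cases b <;> simp_all
  · simp_all

theorem em_erase_split {W : Finset (Gd a)} {p : Fin a × Bool} (hp : p ∈ sp W) :
    em (W.erase (some p)) = insert p.1 (em W) := by
  obtain ⟨l, b⟩ := p
  rw [mem_sp] at hp
  ext l'
  simp only [mem_em, mem_insert, mem_erase, ne_eq, Option.some.injEq, Prod.mk.injEq] at *
  by_cases h : l' = l
  · subst h; cases b <;> simp_all
  · simp_all

theorem sp_erase_full {W : Finset (Gd a)} {l : Fin a} (hl : l ∈ fu W) (b : Bool) :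
    sp (W.erase (some (l, b))) = insert (l, !b) (sp W) := by
  rw [mem_fu] at hl
  ext ⟨l', b'⟩
  simp only [mem_sp, mem_insert, mem_erase, ne_eq, Option.some.injEq, Prod.mk.injEq] at *
  by_cases h : l' = l
  · subst h; cases b <;> cases b' <;> simp_all
  · simp_all

theorem fu_erase_full {W : Finset (Gd a)} {l : Fin a} (_hl : l ∈ fu W) (b : Bool) :
    fu (W.erase (some (l, b))) = (fu W).erase l := by
  ext l'
  simp only [mem_fu, mem_erase, ne_eq, Option.some.injEq, Prod.mk.injEq] at *
  by_cases h : l' = l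
  · subst h; cases b <;> simp_all
  · simp_all

theorem em_erase_full {W : Finset (Gd a)} {l : Fin a} (hl : l ∈ fu W) (b : Bool) :
    em (W.erase (some (l, b))) = em W := by
  rw [mem_fu] at hl
  ext l'
  simp only [mem_em, mem_erase, ne_eq, Option.some.injEq, Prod.mk.injEq] at *
  by_cases h : l' = l
  · subst h; cases b <;> simp_all
  · simp_all

theorem sp_erase_none (W : Finset (Gd a)) : sp (W.erase none) = sp W := by
  ext p; simp [mem_sp]

theorem fu_erase_none (W : Finset (Gd a)) : fu (W.erase none) = fu W := by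
  ext p; simp [mem_fu]

theorem em_erase_none (W : Finset (Gd a)) : em (W.erase none) = em W := by
  ext p; simp [mem_em]

/-! ### adding a point -/

theorem sp_fill {W : Finset (Gd a)} {p : Fin a × Bool} (hp : p ∈ sp W) :
    sp (insert (some (p.1, !p.2)) W) = (sp W).erase p := by
  obtain ⟨l, b⟩ := p
  rw [mem_sp] at hp
  ext ⟨l', b'⟩
  simp only [mem_sp, mem_insert, mem_erase, ne_eq, Option.some.injEq, Prod.mk.injEq] at *
  by_cases h : l' = l
  · subst h; cases b <;> cases b' <;> simp_all
  · simp_all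

theorem fu_fill {W : Finset (Gd a)} {p : Fin a × Bool} (hp : p ∈ sp W) :
    fu (insert (some (p.1, !p.2)) W) = insert p.1 (fu W) := by
  obtain ⟨l, b⟩ := p
  rw [mem_sp] at hp
  ext l'
  simp only [mem_fu, mem_insert, Option.some.injEq, Prod.mk.injEq] at *
  by_cases h : l' = l
  · subst h; cases b <;> simp_all
  · simp_all

theorem em_fill {W : Finset (Gd a)} {p : Fin a × Bool} (hp : p ∈ sp W) :
    em (insert (some (p.1, !p.2)) W) = em W := by
  obtain ⟨l, b⟩ := p
  rw [mem_sp] at hp
  ext l'
  simp only [mem_em, mem_insert, Option.some.injEq, Prod.mk.injEq] at *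
  by_cases h : l' = l
  · subst h; cases b <;> simp_all
  · simp_all

theorem sp_add {W : Finset (Gd a)} {e : Fin a} (he : e ∈ em W) (b : Bool) :
    sp (insert (some (e, b)) W) = insert (e, b) (sp W) := by
  rw [mem_em] at he
  ext ⟨l', b'⟩
  simp only [mem_sp, mem_insert, Option.some.injEq, Prod.mk.injEq] at *
  by_cases h : l' = e
  · subst h; cases b <;> cases b' <;> simp_all
  · simp_all

theorem fu_add {W : Finset (Gd a)} {e : Fin a} (he : e ∈ em W) (b : Bool) :
    fu (insert (some (e, b)) W) = fu W := by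
  rw [mem_em] at he
  ext l'
  simp only [mem_fu, mem_insert, Option.some.injEq, Prod.mk.injEq] at *
  by_cases h : l' = e
  · subst h; cases b <;> simp_all
  · simp_all

theorem em_add {W : Finset (Gd a)} {e : Fin a} (_he : e ∈ em W) (b : Bool) :
    em (insert (some (e, b)) W) = (em W).erase e := by
  ext l'
  simp only [mem_em, mem_insert, mem_erase, ne_eq, Option.some.injEq, Prod.mk.injEq] at *
  by_cases h : l' = e
  · subst h; cases b <;> simp_all
  · simp_all

theorem sp_insert_none (W : Finset (Gd a)) : sp (insert none W) = sp W := by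
  ext p; simp [mem_sp]

theorem fu_insert_none (W : Finset (Gd a)) : fu (insert none W) = fu W := by
  ext p; simp [mem_fu]

theorem em_insert_none (W : Finset (Gd a)) : em (insert none W) = em W := by
  ext p; simp [mem_em]

/-! ### sums -/

/-- sum over a set by type of pair -/
theorem sum_in (W : Finset (Gd a)) (g : Gd a → ℝ) :
    ∑ x ∈ W, g x = (if none ∈ W then g none else 0) + ∑ p ∈ sp W, g (some p) +
      ∑ l ∈ fu W, (g (some (l, true)) + g (some (l, false))) := by
  have e0 : ∑ x ∈ W, g x = ∑ x, if x ∈ W then g x else 0 := by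
    rw [← Finset.sum_filter]
    refine Finset.sum_congr ?_ fun _ _ => rfl
    ext x; simp
  have e1 : ∑ p ∈ sp W, g (some p) =
      ∑ i : Fin a, ∑ b : Bool, if (i, b) ∈ sp W then g (some (i, b)) else 0 := by
    rw [← Fintype.sum_prod_type', ← Finset.sum_filter]
    refine Finset.sum_congr ?_ fun _ _ => rfl
    ext x; simp
  have e2 : ∑ l ∈ fu W, (g (some (l, true)) + g (some (l, false))) =
      ∑ i : Fin a, if i ∈ fu W then (g (some (i, true)) + g (some (i, false))) else 0 := by
    rw [← Finset.sum_filter]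
    refine Finset.sum_congr ?_ fun _ _ => rfl
    ext x; simp
  rw [e0, e1, e2, Fintype.sum_option, Fintype.sum_prod_type, add_assoc, ← Finset.sum_add_distrib]
  congr 1
  refine Finset.sum_congr rfl fun i _ => ?_
  rw [Fintype.sum_bool, Fintype.sum_bool]
  simp only [mem_sp, mem_fu, Bool.not_true, Bool.not_false]
  by_cases h1 : some (i, true) ∈ W <;> by_cases h2 : some (i, false) ∈ W <;> simp [h1, h2]

/-- sum over the complement by type of pair -/
theorem sum_out (W : Finset (Gd a)) (g : Gd a → ℝ) :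
    ∑ x ∈ Wᶜ, g x = (if none ∈ W then 0 else g none) + ∑ p ∈ sp W, g (some (p.1, !p.2)) +
      ∑ e ∈ em W, (g (some (e, true)) + g (some (e, false))) := by
  have e0 : ∑ x ∈ Wᶜ, g x = ∑ x, if x ∈ W then 0 else g x := by
    have : ∑ x, (if x ∈ W then 0 else g x) = ∑ x, (if x ∉ W then g x else 0) := by
      refine Finset.sum_congr rfl fun x _ => ?_
      by_cases h : x ∈ W <;> simp [h]
    rw [this, ← Finset.sum_filter]
    refine Finset.sum_congr ?_ fun _ _ => rfl
    ext x; simp
  have e1 : ∑ p ∈ sp W, g (some (p.1, !p.2)) =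
      ∑ i : Fin a, ∑ b : Bool, if (i, b) ∈ sp W then g (some (i, !b)) else 0 := by
    rw [← Fintype.sum_prod_type' (f := fun (i : Fin a) (b : Bool) =>
      if (i, b) ∈ sp W then g (some (i, !b)) else 0), ← Finset.sum_filter]
    refine Finset.sum_congr ?_ fun _ _ => rfl
    ext x; simp
  have e2 : ∑ l ∈ em W, (g (some (l, true)) + g (some (l, false))) =
      ∑ i : Fin a, if i ∈ em W then (g (some (i, true)) + g (some (i, false))) else 0 := by
    rw [← Finset.sum_filter]
    refine Finset.sum_congr ?_ fun _ _ => rfl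
    ext x; simp
  rw [e0, e1, e2, Fintype.sum_option, Fintype.sum_prod_type, add_assoc, ← Finset.sum_add_distrib]
  congr 1
  refine Finset.sum_congr rfl fun i _ => ?_
  rw [Fintype.sum_bool, Fintype.sum_bool]
  simp only [mem_sp, mem_em, Bool.not_true, Bool.not_false]
  by_cases h1 : some (i, true) ∈ W <;> by_cases h2 : some (i, false) ∈ W <;> simp [h1, h2]

/-- number of points -/
theorem card_W (W : Finset (Gd a)) :
    W.card = (if none ∈ W then 1 else 0) + q W + 2 * (fu W).card := by
  have h := sum_in W (fun _ => (1:ℝ))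
  simp only [Finset.sum_const, nsmul_eq_mul, mul_one] at h
  have h2 : (W.card : ℝ) = (((if none ∈ W then 1 else 0) + q W + 2 * (fu W).card : ℕ) : ℝ) := by
    rw [h]; push_cast; unfold q; ring
  exact_mod_cast h2

/-- number of pairs -/
theorem card_a (W : Finset (Gd a)) : q W + (fu W).card + (em W).card = a := by
  have h := sum_out W (fun _ => (1:ℝ))
  simp only [Finset.sum_const, nsmul_eq_mul, mul_one] at h
  have h1 := card_W W
  have h3 := Finset.card_add_card_compl W
  have h4 : Fintype.card (Gd a) = 2 * a + 1 := by simp [mul_comm]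
  rw [h4] at h3
  by_cases hn : none ∈ W
  · simp only [hn, if_true] at h h1
    have h5 : Wᶜ.card = q W + 2 * (em W).card := by
      have : (Wᶜ.card : ℝ) = ((q W + 2 * (em W).card : ℕ) : ℝ) := by
        rw [h]; push_cast; unfold q; ring
      exact_mod_cast this
    omega
  · simp only [hn, if_false] at h h1
    have h5 : Wᶜ.card = 1 + q W + 2 * (em W).card := by
      have : (Wᶜ.card : ℝ) = ((1 + q W + 2 * (em W).card : ℕ) : ℝ) := by
        rw [h]; push_cast; unfold q; ring
      exact_mod_cast this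
    omega

/-! ### signs -/

theorem sgb_not (b : Bool) : sgb (!b) = - sgb b := by cases b <;> simp [sgb]

theorem sgb_sq (b : Bool) : sgb b * sgb b = 1 := by cases b <;> simp [sgb]

theorem sgb_abs (b : Bool) : |sgb b| = 1 := by cases b <;> simp [sgb]

theorem sgb_or (b : Bool) : sgb b = 1 ∨ sgb b = -1 := by cases b <;> simp [sgb]

theorem ch_or (W : Finset (Gd a)) : ch W = 1 ∨ ch W = -1 := by
  unfold ch
  induction sp W using Finset.induction_on with
  | empty => simp
  | insert p s hp ih =>
    rw [Finset.prod_insert hp]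
    rcases ih with h | h <;> rcases sgb_or p.2 with h' | h' <;> simp [h, h']

theorem ch_sq (W : Finset (Gd a)) : ch W * ch W = 1 := by
  rcases ch_or W with h | h <;> simp [h]

theorem ch_abs (W : Finset (Gd a)) : |ch W| = 1 := by
  rcases ch_or W with h | h <;> simp [h]

/-- effect on `ch` and `S` of removing / adding a split point -/
theorem ch_of_erase {W W' : Finset (Gd a)} {p : Fin a × Bool} (hp : p ∈ sp W)
    (h : sp W' = (sp W).erase p) : ch W' = sgb p.2 * ch W := by
  unfold ch
  rw [h, ← Finset.mul_prod_erase (sp W) (fun p => sgb p.2) hp, ← mul_assoc, sgb_sq, one_mul]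

theorem S_of_erase {W W' : Finset (Gd a)} {p : Fin a × Bool} (hp : p ∈ sp W)
    (h : sp W' = (sp W).erase p) : S W' = S W - sgb p.2 := by
  unfold S
  rw [h, ← Finset.add_sum_erase (sp W) (fun p => sgb p.2) hp]; ring

theorem q_of_erase {W W' : Finset (Gd a)} {p : Fin a × Bool} (hp : p ∈ sp W)
    (h : sp W' = (sp W).erase p) : q W' + 1 = q W := by
  unfold q
  rw [h]; exact Finset.card_erase_add_one hp

theorem ch_of_insert {W W' : Finset (Gd a)} {p : Fin a × Bool} (hp : p ∉ sp W)
    (h : sp W' = insert p (sp W)) : ch W' = sgb p.2 * ch W := by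
  unfold ch
  rw [h, Finset.prod_insert hp]

theorem S_of_insert {W W' : Finset (Gd a)} {p : Fin a × Bool} (hp : p ∉ sp W)
    (h : sp W' = insert p (sp W)) : S W' = S W + sgb p.2 := by
  unfold S
  rw [h, Finset.sum_insert hp]; ring

theorem q_of_insert {W W' : Finset (Gd a)} {p : Fin a × Bool} (hp : p ∉ sp W)
    (h : sp W' = insert p (sp W)) : q W' = q W + 1 := by
  unfold q
  rw [h]; exact Finset.card_insert_of_notMem hp

/-- the sum of `q` signs with one removed lies in `[-(q-1), q-1]` -/
theorem S_sub_abs {W : Finset (Gd a)} {p : Fin a × Bool} (hp : p ∈ sp W) :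
    |S W - sgb p.2| ≤ (q W : ℝ) - 1 := by
  have h : S W - sgb p.2 = ∑ p' ∈ (sp W).erase p, sgb p'.2 := by
    unfold S
    rw [← Finset.add_sum_erase (sp W) (fun p => sgb p.2) hp]; ring
  rw [h]
  calc |∑ p' ∈ (sp W).erase p, sgb p'.2| ≤ ∑ p' ∈ (sp W).erase p, |sgb p'.2| :=
        Finset.abs_sum_le_sum_abs _ _
    _ = (((sp W).erase p).card : ℝ) := by simp [sgb_abs]
    _ = _ := by
      have h1 := Finset.card_erase_add_one hp
      have h2 : ((((sp W).erase p).card : ℝ)) + 1 = ((sp W).card : ℝ) := by exact_mod_cast h1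
      unfold q; linarith

theorem S_abs (W : Finset (Gd a)) : |S W| ≤ (q W : ℝ) := by
  unfold S q
  calc |∑ p' ∈ sp W, sgb p'.2| ≤ ∑ p' ∈ sp W, |sgb p'.2| := Finset.abs_sum_le_sum_abs _ _
    _ = ((sp W).card : ℝ) := by simp [sgb_abs]

end

end E82
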